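import Pool.Agent.Lib.GradedFlag.Def

/-!
# Counting multichains of a finite poset with a strictly antitone rank
-/

namespace GradedTop

namespace Flag

section Chains84

/-- multiplicities -/
def Mult84 (S : Finset ℕ) (k : ℕ) : Type :=
  {a : S → ℕ // (∀ s, 1 ≤ a s) ∧ ∑ s : S, (s : ℕ) * a s = k}

/-- profiles -/
def Prof84 (S : Finset ℕ) (e k : ℕ) : Type :=
  {h : Fin e → ℕ // Antitone h ∧ ∑ n, h n = k ∧ (Finset.univ.image h).erase 0 = S}

lemma coeff_gs84 (S : Finset ℕ) (hS : 0 ∉ S) (k : ℕ) :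
    PowerSeries.coeff k (∏ s ∈ S, gs s) = (Nat.card (Mult84 S k) : ℤ) := by
  classical
  rw [PowerSeries.coeff_prod]
  have h1 : ∀ l ∈ Finset.finsuppAntidiag S k, ∏ i ∈ S, PowerSeries.coeff (l i) (gs i) =
      if (∀ i ∈ S, i ∣ l i ∧ l i ≠ 0) then (1 : ℤ) else 0 := by
    intro l _
    have : ∀ i ∈ S, PowerSeries.coeff (l i) (gs i) = if i ∣ l i ∧ l i ≠ 0 then (1 : ℤ) else 0 := by
      intro i _
      rw [gs, PowerSeries.coeff_mk]
    rw [Finset.prod_congr rfl this, Finset.prod_ite_zero]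
    simp
  rw [Finset.sum_congr rfl h1, Finset.sum_boole]
  norm_cast
  rw [← Fintype.card_coe, ← Nat.card_eq_fintype_card]
  refine Nat.card_congr ⟨fun l => ⟨fun s => l.1 s / s, ?_, ?_⟩,
    fun a => ⟨Finsupp.onFinset S (fun i => if h : i ∈ S then i * a.1 ⟨i, h⟩ else 0) ?_, ?_⟩, ?_, ?_⟩
  · intro s
    have hl := (Finset.mem_filter.1 l.2).2 s s.2
    exact Nat.div_pos (Nat.le_of_dvd (Nat.pos_of_ne_zero hl.2) hl.1)
      (Nat.pos_of_ne_zero fun h => hS (h ▸ s.2))
  · have hl := (Finset.mem_filter.1 l.2).2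
    have hl1 := (Finset.mem_finsuppAntidiag.1 (Finset.mem_filter.1 l.2).1).1
    refine Eq.trans ?_ hl1
    refine Eq.trans ?_ (Finset.sum_coe_sort S l.1)
    refine Finset.sum_congr rfl fun s _ => ?_
    exact Nat.mul_div_cancel' (hl s s.2).1
  · intro i hi
    by_contra h
    exact hi (dif_neg h)
  · rw [Finset.mem_filter, Finset.mem_finsuppAntidiag]
    refine ⟨⟨?_, ?_⟩, ?_⟩
    · rw [← Finset.sum_coe_sort]
      refine Eq.trans ?_ a.2.2
      refine Finset.sum_congr rfl fun s _ => ?_
      rw [Finsupp.onFinset_apply, dif_pos s.2]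
    · exact Finsupp.support_onFinset_subset
    · intro i hi
      rw [Finsupp.onFinset_apply, dif_pos hi]
      refine ⟨Nat.dvd_mul_right _ _, ?_⟩
      exact Nat.mul_ne_zero (fun h => hS (h ▸ hi)) (by have := a.2.1 ⟨i, hi⟩; omega)
  · intro l
    apply Subtype.ext
    ext i
    change (if h : i ∈ S then i * (l.1 i / i) else 0) = l.1 i
    by_cases h : i ∈ S
    · rw [dif_pos h]
      exact Nat.mul_div_cancel' ((Finset.mem_filter.1 l.2).2 i h).1
    · rw [dif_neg h]
      have hl2 := (Finset.mem_finsuppAntidiag.1 (Finset.mem_filter.1 l.2).1).2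
      by_contra hne
      exact h (hl2 (Finsupp.mem_support_iff.2 fun h' => hne h'.symm))
  · intro a
    apply Subtype.ext
    funext s
    change (if h : (s : ℕ) ∈ S then (s : ℕ) * a.1 ⟨s, h⟩ else 0) / (s : ℕ) = a.1 s
    rw [dif_pos s.2]
    exact Nat.mul_div_cancel_left _ (Nat.pos_of_ne_zero fun h => hS (h ▸ s.2))

lemma card_zero84 {e : ℕ} (S : Finset ℕ) (hS : 0 ∉ S) (h : Fin e → ℕ)
    (hh : (Finset.univ.image h).erase 0 = S) :
    (Finset.univ.filter fun n => h n = 0).card +
      ∑ s ∈ S, (Finset.univ.filter fun n => h n = s).card = e := by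
  classical
  have h1 : (Finset.univ : Finset (Fin e)).card =
      ∑ b ∈ insert 0 S, (Finset.univ.filter fun n => h n = b).card := by
    apply Finset.card_eq_sum_card_fiberwise
    intro n _
    rw [← hh]
    by_cases h0 : h n = 0
    · simp [h0]
    · simp [h0]
  rw [Finset.sum_insert hS] at h1
  rw [← h1]; simp

lemma sum_levels84 {e : ℕ} (S : Finset ℕ) (h : Fin e → ℕ)
    (hh : (Finset.univ.image h).erase 0 = S) :
    ∑ s ∈ S, s * (Finset.univ.filter fun n => h n = s).card = ∑ n, h n := by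
  classical
  have h1 := Finset.sum_comp (s := (Finset.univ : Finset (Fin e))) (fun b : ℕ => b) h
  rw [h1, ← hh, Finset.sum_erase]
  · refine Finset.sum_congr rfl fun b _ => ?_
    rw [smul_eq_mul, mul_comm]
  · simp

lemma prof_unique84 {e : ℕ} (h h' : Fin e → ℕ) (ha : Antitone h) (ha' : Antitone h')
    (hc : ∀ v, (Finset.univ.filter fun n => h n = v).card =
      (Finset.univ.filter fun n => h' n = v).card) : h = h' := by
  classical
  have hf : ∀ v, Nonempty ({n // h n = v} ≃ {n // h' n = v}) := by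
    intro v
    rw [← Fintype.card_eq, Fintype.card_subtype, Fintype.card_subtype]
    exact hc v
  let σ : Fin e ≃ Fin e := Equiv.ofFiberEquiv fun v => (hf v).some
  have hσ : ∀ n, h' (σ n) = h n := fun n => Equiv.ofFiberEquiv_map _ n
  have e1 : (OrderDual.toDual ∘ h') ∘ σ = (OrderDual.toDual ∘ h') ∘ (1 : Equiv.Perm (Fin e)) := by
    apply Tuple.unique_monotone
    · intro n m hnm
      change h' (σ m) ≤ h' (σ n)
      rw [hσ, hσ]; exact ha hnm
    · intro n m hnm
      exact ha' hnm
  funext n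
  have := congrFun e1 n
  change h' (σ n) = h' n at this
  rw [← hσ, this]

/-- index type of the surjectivity argument -/
abbrev X84 (S : Finset ℕ) (a : S → ℕ) (b : ℕ) : Type := (Σ s : S, Fin (a s)) ⊕ Fin b

/-- value -/
def val84 (S : Finset ℕ) (a : S → ℕ) (b : ℕ) : X84 S a b → ℕ
  | .inl p => p.1
  | .inr _ => 0

lemma card_val84 (S : Finset ℕ) (hS : 0 ∉ S) (a : S → ℕ) (b : ℕ) (s : S) :
    (Finset.univ.filter fun x : X84 S a b => val84 S a b x = s).card = a s := by
  classical
  have hs0 : (s : ℕ) ≠ 0 := fun h => hS (h ▸ s.2)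
  rw [← Fintype.card_subtype]
  conv_rhs => rw [← Fintype.card_fin (a s)]
  refine Fintype.card_congr ⟨fun x => match x with
    | ⟨.inl ⟨t, i⟩, hx⟩ => Fin.cast (by have : t = s := Subtype.ext hx; rw [this]) i
    | ⟨.inr _, hx⟩ => absurd hx.symm hs0, fun i => ⟨.inl ⟨s, i⟩, rfl⟩, ?_, ?_⟩
  · rintro ⟨x | x, hx⟩
    · obtain ⟨t, i⟩ := x
      have : t = s := Subtype.ext hx
      subst this
      rfl
    · exact absurd hx.symm hs0
  · intro i; rfl

lemma exists_prof84 (S : Finset ℕ) (hS : 0 ∉ S) (e k : ℕ) (hk : k ≤ e) (a : S → ℕ)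
    (ha : ∀ s, 1 ≤ a s) (hsum : ∑ s : S, (s : ℕ) * a s = k) :
    ∃ h : Fin e → ℕ, Antitone h ∧ ∑ n, h n = k ∧ (Finset.univ.image h).erase 0 = S ∧
      ∀ s : S, (Finset.univ.filter fun n => h n = s).card = a s := by
  classical
  have hle : ∑ s, a s ≤ e := by
    refine le_trans ?_ (hsum.le.trans hk)
    refine Finset.sum_le_sum fun s _ => ?_
    exact Nat.le_mul_of_pos_left _ (Nat.pos_of_ne_zero fun h => hS (h ▸ s.2))
  have hcard : Fintype.card (X84 S a (e - ∑ s, a s)) = e := by
    rw [Fintype.card_sum, Fintype.card_sigma]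
    simp only [Fintype.card_fin]
    omega
  let ε : Fin e ≃ X84 S a (e - ∑ s, a s) := (Fintype.equivFinOfCardEq hcard).symm
  let f : Fin e → ℕ := fun n => val84 S a _ (ε n)
  let σ : Equiv.Perm (Fin e) := Tuple.sort (OrderDual.toDual ∘ f)
  have hσ : Monotone ((OrderDual.toDual ∘ f) ∘ σ) := Tuple.monotone_sort _
  let τ : Fin e ≃ X84 S a (e - ∑ s, a s) := σ.trans ε
  have hcount : ∀ s : S, (Finset.univ.filter fun n => f (σ n) = s).card = a s := by
    intro s
    rw [← card_val84 S hS a (e - ∑ s, a s) s]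
    refine Finset.card_bij (fun n _ => τ n) ?_ ?_ ?_
    · intro n hn
      rw [Finset.mem_filter] at hn ⊢
      exact ⟨Finset.mem_univ _, hn.2⟩
    · intro n _ m _ hnm
      exact τ.injective hnm
    · intro x hx
      rw [Finset.mem_filter] at hx
      refine ⟨τ.symm x, ?_, τ.apply_symm_apply x⟩
      rw [Finset.mem_filter]
      refine ⟨Finset.mem_univ _, ?_⟩
      change val84 S a _ (τ (τ.symm x)) = s
      rw [τ.apply_symm_apply]; exact hx.2
  refine ⟨fun n => f (σ n), fun n m hnm => hσ hnm, ?_, ?_, hcount⟩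
  · have : ∑ n, f (σ n) = ∑ x, val84 S a (e - ∑ s, a s) x :=
      Equiv.sum_comp τ (fun x => val84 S a (e - ∑ s, a s) x)
    rw [this, Fintype.sum_sum_type, Fintype.sum_sigma]
    simp only [val84, Finset.sum_const, Finset.card_univ, Fintype.card_fin, smul_eq_mul, mul_zero,
      add_zero]
    rw [← hsum]
    refine Finset.sum_congr rfl fun s _ => mul_comm _ _
  · ext v
    rw [Finset.mem_erase, Finset.mem_image]
    constructor
    · rintro ⟨hv, n, -, rfl⟩
      change val84 S a _ (ε (σ n)) ∈ S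
      have hv' : val84 S a _ (ε (σ n)) ≠ 0 := hv
      revert hv'
      generalize ε (σ n) = x
      intro hv'
      rcases x with x | x
      · exact x.1.2
      · exact absurd rfl hv'
    · intro hv
      refine ⟨fun h => hS (h ▸ hv), ?_⟩
      have h1 := hcount ⟨v, hv⟩
      have h2 := ha ⟨v, hv⟩
      have h3 : 0 < (Finset.univ.filter fun n => f (σ n) = v).card := by
        have : (Finset.univ.filter fun n => f (σ n) = v).card = a ⟨v, hv⟩ := h1
        omega
      obtain ⟨n, hn⟩ := Finset.card_pos.1 h3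
      exact ⟨n, Finset.mem_univ _, (Finset.mem_filter.1 hn).2⟩

lemma card_prof84 (S : Finset ℕ) (hS : 0 ∉ S) (e k : ℕ) (hk : k ≤ e) :
    Nat.card (Prof84 S e k) = Nat.card (Mult84 S k) := by
  classical
  refine Nat.card_congr (Equiv.ofBijective (fun h : Prof84 S e k =>
    (⟨fun s => (Finset.univ.filter fun n => h.1 n = s).card, ?_, ?_⟩ : Mult84 S k)) ⟨?_, ?_⟩)
  · intro s
    have hs : (s : ℕ) ∈ (Finset.univ.image h.1).erase 0 := by rw [h.2.2.2]; exact s.2
    obtain ⟨n, -, hn⟩ := Finset.mem_image.1 (Finset.mem_erase.1 hs).2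
    exact Finset.card_pos.2 ⟨n, Finset.mem_filter.2 ⟨Finset.mem_univ _, hn⟩⟩
  · have := sum_levels84 S h.1 h.2.2.2
    refine Eq.trans ?_ (this.trans h.2.2.1)
    exact Finset.sum_coe_sort S (fun s => s * (Finset.univ.filter fun n => h.1 n = s).card)
  · intro h h' heq
    apply Subtype.ext
    have hc : ∀ s ∈ S, (Finset.univ.filter fun n => h.1 n = s).card =
        (Finset.univ.filter fun n => h'.1 n = s).card := by
      intro s hs
      exact congrFun (congrArg Subtype.val heq) ⟨s, hs⟩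
    apply prof_unique84 h.1 h'.1 h.2.1 h'.2.1
    intro v
    by_cases hv : v ∈ S
    · exact hc v hv
    · by_cases hv0 : v = 0
      · subst hv0
        have e1 := card_zero84 S hS h.1 h.2.2.2
        have e2 := card_zero84 S hS h'.1 h'.2.2.2
        rw [Finset.sum_congr rfl hc] at e1
        omega
      · have key : ∀ g : Prof84 S e k, (Finset.univ.filter fun n => g.1 n = v).card = 0 := by
          intro g
          rw [Finset.card_eq_zero, Finset.filter_eq_empty_iff]
          intro n _ hn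
          apply hv
          have h3 : v ∈ (Finset.univ.image g.1).erase 0 := by
            rw [Finset.mem_erase, Finset.mem_image]
            exact ⟨hv0, n, Finset.mem_univ _, hn⟩
          rwa [g.2.2.2] at h3
        rw [key, key]
  · intro a
    obtain ⟨h, h1, h2, h3, h4⟩ := exists_prof84 S hS e k hk a.1 a.2.1 a.2.2
    refine ⟨⟨h, h1, h2, h3⟩, ?_⟩
    apply Subtype.ext
    funext s
    exact h4 s

/-! ### multichains -/

variable {L : Type} [PartialOrder L] [OrderTop L]

/-- chains -/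
def Chn84 (cd : L → ℕ) (S : Finset ℕ) : Type :=
  {C : S → L // (∀ s, cd (C s) = s) ∧ ∀ s t : S, s ≤ t → C t ≤ C s}

/-- multichains with profile support `S` -/
def MC84 (cd : L → ℕ) (e k : ℕ) (S : Finset ℕ) : Type :=
  {G : Fin e → L // (Monotone G ∧ ∑ n, cd (G n) = k) ∧
    (Finset.univ.image fun n => cd (G n)).erase 0 = S}

lemma card_MC84 (cd : L → ℕ) (h0 : cd ⊤ = 0) (hlt : ∀ x y, x < y → cd y < cd x)
    (e k : ℕ) (S : Finset ℕ) (hS : 0 ∉ S) :
    Nat.card (MC84 cd e k S) = Nat.card (Chn84 cd S) * Nat.card (Prof84 S e k) := by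
  classical
  have hle : ∀ x y, x ≤ y → cd y ≤ cd x := by
    intro x y hxy
    rcases hxy.lt_or_eq with h | h
    · exact (hlt x y h).le
    · rw [h]
  have htop : ∀ x, cd x = 0 → x = ⊤ := by
    intro x hx
    by_contra hne
    have := hlt x ⊤ (lt_top_iff_ne_top.2 hne)
    omega
  have huniq : ∀ (G : Fin e → L), Monotone G → ∀ n m, cd (G n) = cd (G m) → G n = G m := by
    intro G hG n m h
    rcases le_total n m with hnm | hnm
    · rcases (hG hnm).lt_or_eq with h' | h'
      · have := hlt _ _ h'; omega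
      · exact h'
    · rcases (hG hnm).lt_or_eq with h' | h'
      · have := hlt _ _ h'; omega
      · exact h'.symm
  have hex : ∀ (G : MC84 cd e k S) (s : S), ∃ n, cd (G.1 n) = s := by
    intro G s
    have hs : (s : ℕ) ∈ (Finset.univ.image fun n => cd (G.1 n)).erase 0 := by
      rw [G.2.2]; exact s.2
    obtain ⟨n, -, hn⟩ := Finset.mem_image.1 (Finset.mem_erase.1 hs).2
    exact ⟨n, hn⟩
  have hmem : ∀ (h : Prof84 S e k) (n : Fin e), h.1 n ≠ 0 → h.1 n ∈ S := by
    intro h n hn
    have h3 : h.1 n ∈ (Finset.univ.image h.1).erase 0 := by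
      rw [Finset.mem_erase, Finset.mem_image]
      exact ⟨hn, n, Finset.mem_univ _, rfl⟩
    rwa [h.2.2.2] at h3
  let bk : Chn84 cd S × Prof84 S e k → Fin e → L := fun p n =>
    if hn : p.2.1 n = 0 then ⊤ else p.1.1 ⟨p.2.1 n, hmem p.2 n hn⟩
  have hbk : ∀ p n, cd (bk p n) = p.2.1 n := by
    intro p n
    by_cases hn : p.2.1 n = 0
    · simp only [bk, dif_pos hn, h0, hn]
    · simp only [bk, dif_neg hn]
      exact p.1.2.1 _
  have hbkm : ∀ p, Monotone (bk p) := by
    intro p n m hnm
    by_cases hm : p.2.1 m = 0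
    · simp only [bk, dif_pos hm]; exact le_top
    · have hn : p.2.1 n ≠ 0 := by
        have := p.2.2.1 hnm
        omega
      simp only [bk, dif_neg hm, dif_neg hn]
      exact p.1.2.2 _ _ (p.2.2.1 hnm)
  have hprop : ∀ p, (Monotone (bk p) ∧ ∑ n, cd (bk p n) = k) ∧
      (Finset.univ.image fun n => cd (bk p n)).erase 0 = S := by
    intro p
    refine ⟨⟨hbkm p, ?_⟩, ?_⟩
    · exact (Finset.sum_congr rfl fun n _ => hbk p n).trans p.2.2.2.1
    · refine Eq.trans ?_ p.2.2.2.2
      congr 1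
      exact Finset.image_congr fun n _ => hbk p n
  rw [← Nat.card_prod]
  refine Nat.card_congr ⟨fun G => (⟨fun s => G.1 (hex G s).choose, ?_, ?_⟩,
      ⟨fun n => cd (G.1 n), ?_, G.2.1.2, G.2.2⟩),
    fun p => ⟨bk p, hprop p⟩, ?_, ?_⟩
  · intro s; exact (hex G s).choose_spec
  · intro s t hst
    have hs := (hex G s).choose_spec
    have ht := (hex G t).choose_spec
    rcases le_total (hex G t).choose (hex G s).choose with h | h
    · exact G.2.1.1 h
    · have h1 := hle _ _ (G.2.1.1 h)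
      rw [hs, ht] at h1
      have h2 : (s : ℕ) = t := le_antisymm hst h1
      exact (huniq G.1 G.2.1.1 _ _ (by rw [hs, ht, h2])).le
  · intro n m hnm
    exact hle _ _ (G.2.1.1 hnm)
  · intro G
    apply Subtype.ext
    funext n
    change (if hn : cd (G.1 n) = 0 then ⊤ else _) = G.1 n
    split_ifs with hn
    · exact (htop _ hn).symm
    · exact huniq G.1 G.2.1.1 _ _ (hex G ⟨cd (G.1 n), _⟩).choose_spec
  · rintro ⟨C, h⟩
    apply Prod.ext
    · apply Subtype.ext
      funext s
      have key : ∀ n, cd (bk (C, h) n) = s → bk (C, h) n = C.1 s := by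
        intro n hn
        rw [hbk] at hn
        have hn' : h.1 n = s := hn
        have hs0 : (s : ℕ) ≠ 0 := fun h' => hS (h' ▸ s.2)
        have hn0 : h.1 n ≠ 0 := by rw [hn']; exact hs0
        simp only [bk, dif_neg hn0]
        exact congrArg C.1 (Subtype.ext hn')
      exact key _ (hex ⟨bk (C, h), hprop (C, h)⟩ s).choose_spec
    · apply Subtype.ext
      funext n
      exact hbk (C, h) n

theorem multichain_count {L : Type} [PartialOrder L] [OrderTop L] [Finite L] (cd : L → ℕ)
    (h0 : cd ⊤ = 0) (hlt : ∀ x y, x < y → cd y < cd x) (r : ℕ) (hr : ∀ x, cd x ≤ r)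
    (e k : ℕ) (hk : k ≤ e) :
    (Nat.card {G : Fin e → L // Monotone G ∧ ∑ n, cd (G n) = k} : ℤ) =
      ∑ S ∈ (Finset.Icc 1 r).powerset, (nch cd S : ℤ) * PowerSeries.coeff k (∏ s ∈ S, gs s) := by
  classical
  have := Fintype.ofFinite L
  have h1 : Nat.card {G : Fin e → L // Monotone G ∧ ∑ n, cd (G n) = k} =
      ∑ S ∈ (Finset.Icc 1 r).powerset, Nat.card (MC84 cd e k S) := by
    rw [Nat.card_eq_fintype_card, Fintype.card_subtype]
    rw [Finset.card_eq_sum_card_fiberwise
      (f := fun G : Fin e → L => (Finset.univ.image fun n => cd (G n)).erase 0)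
      (t := (Finset.Icc 1 r).powerset)]
    · refine Finset.sum_congr rfl fun S _ => ?_
      unfold MC84
      rw [Nat.card_eq_fintype_card, Fintype.card_subtype, Finset.filter_filter]
    · intro G _
      simp only [Finset.coe_powerset, Set.mem_preimage, Set.mem_powerset_iff, Finset.coe_subset]
      intro v hv
      rw [Finset.mem_erase, Finset.mem_image] at hv
      obtain ⟨hv0, n, -, rfl⟩ := hv
      rw [Finset.mem_Icc]
      exact ⟨Nat.pos_of_ne_zero hv0, hr _⟩
  rw [h1]
  push_cast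
  refine Finset.sum_congr rfl fun S hS => ?_
  have hS0 : 0 ∉ S := by
    intro h
    have := Finset.mem_Icc.1 (Finset.mem_powerset.1 hS h)
    omega
  rw [card_MC84 cd h0 hlt e k S hS0, card_prof84 S hS0 e k hk, coeff_gs84 S hS0 k]
  push_cast
  rfl

end Chains84

end Flag

end GradedTop
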