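import Pool.Agent.Lib.GradedFlag.Def
import Pool.Agent.Lib.GradedTop.LieSys

/-!
# Graded ideals of free nilpotent Lie algebras in Lyndon coordinates
-/

namespace GradedTop

namespace Flag

open GradedTop.Four Submodule Module

section

variable {d : ℕ} (D : LynData d) (c : ℕ) (R : Type) [CommRing R]

/-- coordinates in degrees at most `c` -/
noncomputable def LC16 : (LynLe d c → R) →ₗ[R] FreeLieAlgebra R (Fin d) :=
  lc fun w : LynLe d c => D.b R w.1

/-- coordinates in degree `c + 1` -/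
noncomputable def LK16 : (Lyn d (c + 1) → R) →ₗ[R] FreeLieAlgebra R (Fin d) :=
  lc fun w : Lyn d (c + 1) => D.b R w.1

lemma LC16_injective : Function.Injective (LC16 D c R) := by
  have h1 : LinearIndependent R (fun w : LynLe d c => D.b R w.1) :=
    (D.ind R).comp (fun w : LynLe d c => (⟨w.1, w.2.1⟩ : {w : List (Fin d) // IsLyn w}))
      (fun a b h => Subtype.ext (congrArg (fun w : {w : List (Fin d) // IsLyn w} => w.1) h))
  exact h1.fintypeLinearCombination_injective

lemma LK16_injective : Function.Injective (LK16 D c R) := by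
  have h1 : LinearIndependent R (fun w : Lyn d (c + 1) => D.b R w.1) :=
    (D.ind R).comp (fun w : Lyn d (c + 1) => (⟨w.1, w.2.1⟩ : {w : List (Fin d) // IsLyn w}))
      (fun a b h => Subtype.ext (congrArg (fun w : {w : List (Fin d) // IsLyn w} => w.1) h))
  exact h1.fintypeLinearCombination_injective

lemma LK16_range : LinearMap.range (LK16 D c R) = comp R d (c + 1) := by
  rw [LK16, lc_range, D.spn]

variable {c R}

/-- sums over Lyndon words of a given length -/
lemma sum_lyn16 {M : Type} [AddCommMonoid M] (n : ℕ) (hn : n ≤ c) (f : List (Fin d) → M) :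
    ∑ w : Lyn d n, f w.1 = ∑ x : LynLe d c, if x.1.length = n then f x.1 else 0 := by
  classical
  rw [← Finset.sum_filter]
  symm
  refine Finset.sum_bij' (fun x hx => (⟨x.1, x.2.1, (Finset.mem_filter.1 hx).2⟩ : Lyn d n))
    (fun w _ => (⟨w.1, w.2.1, w.2.2.trans_le hn⟩ : LynLe d c)) ?_ ?_ ?_ ?_ ?_
  · intro a _; exact Finset.mem_univ _
  · intro a _; exact Finset.mem_filter.2 ⟨Finset.mem_univ _, a.2.2⟩
  · intro a _; rfl
  · intro a _; rfl
  · intro a _; rfl

lemma brk_b16 (j : Fin d) (y : LynLe d c) (hy : y.1.length < c) :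
    brk j (D.b R y.1) =
      ∑ x : LynLe d c, (((lynSys D c).T j x y : ℤ) : R) • D.b R x.1 := by
  have h0 : 0 < y.1.length := List.length_pos_iff.2 y.2.1.1
  obtain ⟨n, hn⟩ := Nat.exists_eq_succ_of_ne_zero h0.ne'
  rw [brk_apply]
  have h1 := D.brk R n ⟨y.1, y.2.1, hn⟩ j
  rw [h1, sum_lyn16 (c := c) (n + 2) (by omega)
    (fun w' => ((D.T j w' y.1 : ℤ) : R) • D.b R w')]
  refine Finset.sum_congr rfl fun x _ => ?_
  have h2 : (lynSys D c).T j x y = if x.1.length = y.1.length + 1 then D.T j x.1 y.1 else 0 := rfl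
  rw [h2]
  by_cases h : x.1.length = n + 2
  · rw [if_pos h, if_pos (by omega)]
  · rw [if_neg h, if_neg (by omega)]; simp

lemma brk_b16_top (j : Fin d) (y : LynLe d c) (hy : y.1.length = c) :
    brk j (D.b R y.1) =
      ∑ x : Lyn d (c + 1), (((lynSys D c).T4 j x y : ℤ) : R) • D.b R x.1 := by
  have h0 : 0 < y.1.length := List.length_pos_iff.2 y.2.1.1
  obtain ⟨n, hn⟩ := Nat.exists_eq_succ_of_ne_zero h0.ne'
  have hc : c = n + 1 := by omega
  subst hc
  rw [brk_apply]
  have h1 := D.brk R n ⟨y.1, y.2.1, hn⟩ j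
  rw [h1]
  refine Finset.sum_congr rfl fun x _ => ?_
  have h2 : (lynSys D (n + 1)).T4 j x y = if y.1.length = n + 1 then D.T j x.1 y.1 else 0 := rfl
  rw [h2, if_pos hy]

lemma T16_lv (j : Fin d) (x y : LynLe d c) (h : (lynSys D c).T j x y ≠ 0) :
    x.1.length = y.1.length + 1 := by
  have h2 : (lynSys D c).T j x y = if x.1.length = y.1.length + 1 then D.T j x.1 y.1 else 0 := rfl
  rw [h2] at h
  by_contra hne
  exact h (if_neg hne)

lemma T416_lv (j : Fin d) (x : Lyn d (c + 1)) (y : LynLe d c) (h : (lynSys D c).T4 j x y ≠ 0) :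
    y.1.length = c := by
  have h2 : (lynSys D c).T4 j x y = if y.1.length = c then D.T j x.1 y.1 else 0 := rfl
  rw [h2] at h
  by_contra hne
  exact h (if_neg hne)

lemma brk_LC16_low (j : Fin d) (v : LynLe d c → R) (hv : ∀ x : LynLe d c, x.1.length = c → v x = 0) :
    LC16 D c R (tl R ((lynSys D c).T j) v) = brk j (LC16 D c R v) := by
  have h1 : brk j (LC16 D c R v) = ∑ y : LynLe d c, v y • brk j (D.b R y.1) := by
    rw [LC16, lc_apply, map_sum]
    exact Finset.sum_congr rfl fun y _ => map_smul _ _ _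
  have h2 : ∀ y : LynLe d c, v y • brk j (D.b R y.1) =
      ∑ x : LynLe d c, (v y * (((lynSys D c).T j x y : ℤ) : R)) • D.b R x.1 := by
    intro y
    by_cases hy : y.1.length = c
    · rw [hv y hy]; simp
    · rw [brk_b16 D j y (lt_of_le_of_ne y.2.2 hy), Finset.smul_sum]
      exact Finset.sum_congr rfl fun x _ => smul_smul _ _ _
  rw [h1, Finset.sum_congr rfl fun y _ => h2 y, Finset.sum_comm, LC16, lc_apply]
  refine Finset.sum_congr rfl fun x _ => ?_
  rw [tl_apply, ← Finset.sum_smul]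
  congr 1
  exact Finset.sum_congr rfl fun y _ => mul_comm _ _

lemma brk_LC16_high (j : Fin d) (v : LynLe d c → R)
    (hv : ∀ x : LynLe d c, x.1.length ≠ c → v x = 0) :
    LK16 D c R (tl R ((lynSys D c).T4 j) v) = brk j (LC16 D c R v) := by
  have h1 : brk j (LC16 D c R v) = ∑ y : LynLe d c, v y • brk j (D.b R y.1) := by
    rw [LC16, lc_apply, map_sum]
    exact Finset.sum_congr rfl fun y _ => map_smul _ _ _
  have h2 : ∀ y : LynLe d c, v y • brk j (D.b R y.1) =
      ∑ x : Lyn d (c + 1), (v y * (((lynSys D c).T4 j x y : ℤ) : R)) • D.b R x.1 := by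
    intro y
    by_cases hy : y.1.length = c
    · rw [brk_b16_top D j y hy, Finset.smul_sum]
      exact Finset.sum_congr rfl fun x _ => smul_smul _ _ _
    · rw [hv y hy]; simp
  rw [h1, Finset.sum_congr rfl fun y _ => h2 y, Finset.sum_comm, LK16, lc_apply]
  refine Finset.sum_congr rfl fun x _ => ?_
  rw [tl_apply, ← Finset.sum_smul]
  congr 1
  exact Finset.sum_congr rfl fun y _ => mul_comm _ _

/-! ### Components -/

variable (c R) in
/-- the part of degree `i` -/
noncomputable def Lm16 (i : ℕ) : (LynLe d c → R) →ₗ[R] FreeLieAlgebra R (Fin d) where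
  toFun v := LC16 D c R (cut (lynSys D c).lv i v)
  map_add' v v' := by
    rw [← map_add]; congr 1; funext x; simp only [cut, Pi.add_apply]; split_ifs <;> simp
  map_smul' r v := by
    rw [RingHom.id_apply, ← map_smul]; congr 1; funext x
    simp only [cut, Pi.smul_apply]; split_ifs <;> simp

lemma Lm16_apply (i : ℕ) (v : LynLe d c → R) :
    Lm16 D c R i v = LC16 D c R (cut (lynSys D c).lv i v) := rfl

lemma cut_cut16 {J : Type} (f : J → ℕ) (i k : ℕ) (v : J → R) :
    cut f i (cut f k v) = if i = k then cut f i v else 0 := by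
  funext x
  by_cases h : i = k
  · subst h
    rw [if_pos rfl]
    simp only [cut]
    split_ifs <;> rfl
  · rw [if_neg h]
    simp only [cut, Pi.zero_apply]
    split_ifs with h1 h2
    · exact absurd (h1.symm.trans h2) h
    · rfl
    · rfl

lemma Lm16_mem (i : ℕ) (hi : i ≠ 0) (v : LynLe d c → R) : Lm16 D c R i v ∈ comp R d i := by
  obtain ⟨n, rfl⟩ := Nat.exists_eq_succ_of_ne_zero hi
  rw [Lm16_apply, LC16, lc_apply]
  refine Submodule.sum_mem _ fun x _ => ?_
  by_cases h : (lynSys D c).lv x = n + 1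
  · refine Submodule.smul_mem _ _ ?_
    rw [D.spn R n]
    exact subset_span ⟨⟨x.1, x.2.1, h⟩, rfl⟩
  · have : cut (lynSys D c).lv (n + 1) v x = 0 := by simp only [cut]; rw [if_neg h]
    rw [this, zero_smul]; exact Submodule.zero_mem _

lemma comp_le_Lm16 (i : ℕ) (hi : i ≤ c) : comp R d i ≤ LinearMap.range (Lm16 D c R i) := by
  classical
  cases i with
  | zero => exact bot_le
  | succ n =>
    rw [D.spn R n, span_le]
    rintro _ ⟨w, rfl⟩
    have x0 : {x0 : LynLe d c // x0.1 = w.1} := ⟨⟨w.1, w.2.1, w.2.2.trans_le hi⟩, rfl⟩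
    refine ⟨fun x => if x = x0.1 then 1 else 0, ?_⟩
    rw [Lm16_apply, LC16, lc_apply, Finset.sum_eq_single x0.1]
    · have h2 : (lynSys D c).lv x0.1 = n + 1 := by
        have h3 : (lynSys D c).lv x0.1 = x0.1.1.length := rfl
        rw [h3, x0.2]; exact w.2.2
      have h1 : cut (lynSys D c).lv (n + 1) (fun x => if x = x0.1 then (1 : R) else 0) x0.1 =
          1 := by
        simp only [cut]
        rw [if_pos h2, if_pos trivial]
      rw [h1, one_smul, x0.2]
    · intro x _ hx
      have h1 : cut (lynSys D c).lv (n + 1) (fun x => if x = x0.1 then (1 : R) else 0) x = 0 := by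
        simp only [cut]
        rw [if_neg hx, ite_self]
      rw [h1, zero_smul]
    · intro h; exact absurd (Finset.mem_univ _) h

lemma exists_Lm16 (i : ℕ) (hi : i ≤ c) (z : FreeLieAlgebra R (Fin d)) (hz : z ∈ comp R d i) :
    ∃ v : LynLe d c → R, Lm16 D c R i v = z ∧ ∀ k, k ≠ i → Lm16 D c R k v = 0 := by
  obtain ⟨v, rfl⟩ := comp_le_Lm16 D i hi hz
  refine ⟨cut (lynSys D c).lv i v, ?_, ?_⟩
  · rw [Lm16_apply, cut_cut16, if_pos rfl, Lm16_apply]
  · intro k hk
    rw [Lm16_apply, cut_cut16, if_neg hk, map_zero]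

lemma Lm16_T (i : ℕ) (hi : i < c) (j : Fin d) (v : LynLe d c → R) :
    Lm16 D c R (i + 1) (tl R ((lynSys D c).T j) v) = brk j (Lm16 D c R i v) := by
  rw [Lm16_apply, Lm16_apply, ← brk_LC16_low]
  · congr 1
    funext x
    rw [tl_apply]
    simp only [cut]
    split_ifs with h
    · rw [tl_apply]
      refine Finset.sum_congr rfl fun y _ => ?_
      split_ifs with h2
      · rfl
      · have h3 : (lynSys D c).T j x y = 0 := by
          by_contra hne
          have h4 : (lynSys D c).lv x = (lynSys D c).lv y + 1 := T16_lv D j x y hne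
          exact h2 (by omega)
        rw [h3]; simp
    · symm
      refine Finset.sum_eq_zero fun y _ => ?_
      split_ifs with h2
      · have h3 : (lynSys D c).T j x y = 0 := by
          by_contra hne
          have h4 : (lynSys D c).lv x = (lynSys D c).lv y + 1 := T16_lv D j x y hne
          exact h (by omega)
        rw [h3]; simp
      · simp
  · intro x hx
    have h5 : (lynSys D c).lv x = x.1.length := rfl
    simp only [cut]
    rw [if_neg (by omega)]

lemma Lm16_zero (v : LynLe d c → R) : Lm16 D c R 0 v = 0 := by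
  rw [Lm16_apply]
  have h1 : cut (lynSys D c).lv 0 v = 0 := by
    funext x
    simp only [cut, Pi.zero_apply]
    rw [if_neg]
    have h0 : 0 < x.1.length := List.length_pos_iff.2 x.2.1.1
    have h5 : (lynSys D c).lv x = x.1.length := rfl
    omega
  rw [h1, map_zero]

lemma LK16_T4 (j : Fin d) (v : LynLe d c → R) :
    LK16 D c R (tl R ((lynSys D c).T4 j) v) = brk j (Lm16 D c R c v) := by
  rw [Lm16_apply, ← brk_LC16_high]
  · congr 1
    funext x
    rw [tl_apply, tl_apply]
    refine Finset.sum_congr rfl fun y _ => ?_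
    simp only [cut]
    split_ifs with h
    · rfl
    · have h3 : (lynSys D c).T4 j x y = 0 := by
        by_contra hne
        exact h (T416_lv D j x y hne)
      rw [h3]; simp
  · intro x hx
    simp only [cut]
    exact if_neg hx

lemma sum_cut16 (v : LynLe d c → R) : v = ∑ i : Fin c, cut (lynSys D c).lv (i + 1) v := by
  funext x
  have h0 : 0 < x.1.length := List.length_pos_iff.2 x.2.1.1
  have h1 := x.2.2
  have h5 : (lynSys D c).lv x = x.1.length := rfl
  rw [Finset.sum_apply, Finset.sum_eq_single (⟨(lynSys D c).lv x - 1, by omega⟩ : Fin c)]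
  · simp only [cut]
    rw [if_pos (by omega)]
  · intro i _ hi
    simp only [cut]
    rw [if_neg]
    intro h
    exact hi (Fin.ext (by simp only; omega))
  · intro h; exact absurd (Finset.mem_univ _) h

lemma eq_of_Lm16 (v v' : LynLe d c → R)
    (h : ∀ i : Fin c, Lm16 D c R (i + 1) v = Lm16 D c R (i + 1) v') : v = v' := by
  rw [sum_cut16 D v, sum_cut16 D v']
  exact Finset.sum_congr rfl fun i _ => LC16_injective D c R (h i)

/-! ### Graded ideals -/

variable (c R) in
/-- the pair of coordinate lattices -/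
noncomputable def toN16 (Λ : Fin (c + 1) → Submodule R (FreeLieAlgebra R (Fin d))) :
    Submodule R (LynLe d c → R) × Submodule R (Lyn d (c + 1) → R) :=
  (⨅ i : Fin c, (Λ i.castSucc).comap (Lm16 D c R (i + 1)), (Λ (Fin.last c)).comap (LK16 D c R))

lemma mem_toN16 (Λ : Fin (c + 1) → Submodule R (FreeLieAlgebra R (Fin d)))
    (v : LynLe d c → R) :
    v ∈ (toN16 D c R Λ).1 ↔ ∀ i : Fin c, Lm16 D c R (i + 1) v ∈ Λ i.castSucc := by
  simp only [toN16, Submodule.mem_iInf, Submodule.mem_comap]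

variable (c R) in
/-- decomposition in homogeneous components -/
noncomputable def FF16 : (LynLe d c → R) →ₗ[R] (∀ i : Fin c, comp R d (i + 1)) :=
  LinearMap.pi fun i : Fin c =>
    (Lm16 D c R ((i : ℕ) + 1)).codRestrict (comp R d (i + 1))
      (fun v => Lm16_mem D _ (Nat.succ_ne_zero _) v)

lemma FF16_apply (v : LynLe d c → R) (i : Fin c) :
    ((FF16 D c R v i : comp R d (i + 1)) : FreeLieAlgebra R (Fin d)) = Lm16 D c R (i + 1) v := rfl

lemma FF16_bijective : Function.Bijective (FF16 D c R) := by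
  constructor
  · intro v v' h
    refine eq_of_Lm16 D v v' fun i => ?_
    rw [← FF16_apply, ← FF16_apply, h]
  · intro z
    have h1 : ∀ i : Fin c, ∃ v : LynLe d c → R, Lm16 D c R (i + 1) v = z i ∧
        ∀ k, k ≠ (i : ℕ) + 1 → Lm16 D c R k v = 0 :=
      fun i => exists_Lm16 D _ (by omega) _ (z i).2
    choose v hv hv' using h1
    refine ⟨∑ i, v i, ?_⟩
    funext k
    apply Subtype.ext
    rw [FF16_apply, map_sum, Finset.sum_eq_single k]
    · exact hv k
    · intro i _ hi
      refine hv' i _ ?_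
      intro h
      exact hi (Fin.ext (by omega))
    · intro h; exact absurd (Finset.mem_univ k) h

lemma map_FF16 (Λ : Fin (c + 1) → Submodule R (FreeLieAlgebra R (Fin d))) :
    (toN16 D c R Λ).1.map
      (LinearEquiv.ofBijective (FF16 D c R) (FF16_bijective D) :
        (LynLe d c → R) →ₗ[R] (∀ i : Fin c, comp R d (i + 1))) =
      Submodule.pi Set.univ
        (fun i : Fin c => (Λ i.castSucc).comap (comp R d (i + 1)).subtype) := by
  ext z
  obtain ⟨v, rfl⟩ := (FF16_bijective D).2 z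
  constructor
  · rintro ⟨v', hv', h⟩
    have hv : v' = v := (FF16_bijective D).1 h
    subst hv
    rw [Submodule.mem_pi]
    intro i _
    exact (mem_toN16 D Λ _).1 hv' i
  · intro h
    refine ⟨v, ?_, rfl⟩
    rw [SetLike.mem_coe, mem_toN16]
    intro i
    exact (Submodule.mem_pi.1 h) i trivial

lemma cardQuot_toN16_1 (Λ : Fin (c + 1) → Submodule R (FreeLieAlgebra R (Fin d))) :
    cardQuot (toN16 D c R Λ).1 = ∏ i : Fin c,
      (Λ i.castSucc).toAddSubgroup.relIndex (comp R d (i + 1)).toAddSubgroup := by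
  rw [cardQuot_apply,
    Nat.card_congr (Submodule.Quotient.equiv _ _ _ (map_FF16 D Λ)).toEquiv,
    Nat.card_congr (Submodule.quotientPi
      (fun i : Fin c => (Λ i.castSucc).comap (comp R d (i + 1)).subtype)).toEquiv, Nat.card_pi]
  exact Finset.prod_congr rfl fun i _ => rfl

lemma cardQuot_toN16_2 (Λ : Fin (c + 1) → Submodule R (FreeLieAlgebra R (Fin d))) :
    cardQuot (toN16 D c R Λ).2 =
      (Λ (Fin.last c)).toAddSubgroup.relIndex (comp R d (c + 1)).toAddSubgroup := by
  have h := relIndex_comap_lc (fun w : Lyn d (c + 1) => D.b R w.1) (Λ (Fin.last c))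
  have h2 := LK16_range D c R
  rw [LK16] at h2
  rw [h2] at h
  exact h.symm

lemma idx_toN16 (Λ : Fin (c + 1) → Submodule R (FreeLieAlgebra R (Fin d))) :
    idx R (c + 1) d Λ = cardQuot (toN16 D c R Λ).1 * cardQuot (toN16 D c R Λ).2 := by
  rw [idx, Fin.prod_univ_castSucc, cardQuot_toN16_1, cardQuot_toN16_2]
  rfl

lemma lie_comp_one16 (L L' : Submodule R (FreeLieAlgebra R (Fin d)))
    (h : ∀ j, ∀ u ∈ L, brk j u ∈ L') : ∀ u ∈ L, ∀ v ∈ comp R d 1, ⁅u, v⁆ ∈ L' := by
  intro u hu v hv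
  rw [comp_one] at hv
  obtain ⟨y, rfl⟩ := hv
  rw [lc_apply (b1 R d), lie_sum]
  refine L'.sum_mem fun j _ => ?_
  rw [lie_smul]
  exact L'.smul_mem _ (h j u hu)

lemma exists_toN16 (Λ : Fin (c + 1) → Submodule R (FreeLieAlgebra R (Fin d)))
    (hle : ∀ i : Fin (c + 1), Λ i ≤ comp R d (i + 1)) (i : Fin c)
    (u : FreeLieAlgebra R (Fin d)) (hu : u ∈ Λ i.castSucc) :
    ∃ v ∈ (toN16 D c R Λ).1, Lm16 D c R (i + 1) v = u := by
  obtain ⟨v, h1, h2⟩ := exists_Lm16 D (R := R) (c := c) ((i : ℕ) + 1) (by omega) u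
    (hle i.castSucc hu)
  refine ⟨v, ?_, h1⟩
  rw [mem_toN16]
  intro k
  by_cases hk : k = i
  · subst hk; rw [h1]; exact hu
  · rw [h2 _ (by intro h; exact hk (Fin.ext (by omega)))]; exact Submodule.zero_mem _

lemma idl_toN16 (Λ : Fin (c + 1) → Submodule R (FreeLieAlgebra R (Fin d)))
    (hI : IsGr R (c + 1) d Λ) : Idl (lynSys D c) R (toN16 D c R Λ) := by
  have hb : ∀ i k : Fin (c + 1), (k : ℕ) = i + 1 → ∀ j : Fin d, ∀ u ∈ Λ i, brk j u ∈ Λ k := by
    intro i k hik j u hu
    exact hI.lie i k hik u hu _ (by rw [comp]; exact Submodule.subset_span ⟨j, rfl⟩)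
  refine ⟨?_, ?_, ?_⟩
  · intro v hv k
    rw [mem_toN16] at hv ⊢
    intro i
    rw [Lm16_apply, cut_cut16]
    split_ifs
    · exact hv i
    · rw [map_zero]; exact Submodule.zero_mem _
  · intro j
    rw [Submodule.map_le_iff_le_comap]
    intro v hv
    rw [mem_toN16] at hv
    rw [Submodule.mem_comap, mem_toN16]
    rintro ⟨i, hi⟩
    cases i with
    | zero =>
      have h1 := Lm16_T D (R := R) 0 hi j v
      rw [Lm16_zero, map_zero] at h1
      change Lm16 D c R (0 + 1) _ ∈ _
      rw [h1]; exact Submodule.zero_mem _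
    | succ i =>
      have h1 := Lm16_T D (R := R) (i + 1) hi j v
      change Lm16 D c R (i + 1 + 1) _ ∈ _
      rw [h1]
      exact hb (⟨i, by omega⟩ : Fin c).castSucc (⟨i + 1, hi⟩ : Fin c).castSucc rfl j _
        (hv ⟨i, by omega⟩)
  · intro j
    rw [Submodule.map_le_iff_le_comap]
    intro v hv
    rw [mem_toN16] at hv
    change LK16 D c R (tl R ((lynSys D c).T4 j) v) ∈ Λ (Fin.last c)
    rw [LK16_T4]
    cases c with
    | zero =>
      rw [Lm16_zero, map_zero]; exact Submodule.zero_mem _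
    | succ n =>
      exact hb (Fin.last n).castSucc (Fin.last (n + 1)) rfl j _ (hv (Fin.last n))

lemma isGr_of_idl16 (Λ : Fin (c + 1) → Submodule R (FreeLieAlgebra R (Fin d)))
    (hle : ∀ i : Fin (c + 1), Λ i ≤ comp R d (i + 1))
    (hN : Idl (lynSys D c) R (toN16 D c R Λ)) : IsGr R (c + 1) d Λ := by
  refine ⟨hle, ?_⟩
  intro i k hik
  apply lie_comp_one16
  intro j u hu
  rcases i with ⟨i, hi⟩
  rcases k with ⟨k, hk⟩
  simp only at hik
  subst hik
  obtain ⟨v, hvm, rfl⟩ := exists_toN16 D Λ hle ⟨i, by omega⟩ u hu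
  have hi3 : i + 1 < c ∨ i + 1 = c := by omega
  rcases hi3 with h | h
  · have h1 := Lm16_T D (R := R) (i + 1) h j v
    change brk j (Lm16 D c R (i + 1) v) ∈ _
    rw [← h1]
    have h2 := hN.t j ⟨v, hvm, rfl⟩
    rw [mem_toN16] at h2
    exact h2 ⟨i + 1, h⟩
  · subst h
    change brk j (Lm16 D (i + 1) R (i + 1) v) ∈ Λ (Fin.last (i + 1))
    rw [← LK16_T4]
    exact hN.t4 j ⟨v, hvm, rfl⟩

lemma toN16_mono {Λ Λ' : Fin (c + 1) → Submodule R (FreeLieAlgebra R (Fin d))} (h : Λ ≤ Λ') :
    toN16 D c R Λ ≤ toN16 D c R Λ' := by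
  constructor
  · intro v hv
    rw [mem_toN16] at hv ⊢
    exact fun i => h _ (hv i)
  · exact Submodule.comap_mono (h _)

lemma le_of_toN16 {Λ Λ' : Fin (c + 1) → Submodule R (FreeLieAlgebra R (Fin d))}
    (hle : ∀ i : Fin (c + 1), Λ i ≤ comp R d (i + 1)) (h : toN16 D c R Λ ≤ toN16 D c R Λ') :
    Λ ≤ Λ' := by
  intro i
  induction i using Fin.lastCases with
  | last =>
    intro u hu
    have h1 := hle (Fin.last c) hu
    have h2 : comp R d ((Fin.last c : Fin (c + 1)) + 1) = comp R d (c + 1) := by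
      rw [Fin.val_last]
    rw [h2, ← LK16_range D c R] at h1
    obtain ⟨v, rfl⟩ := h1
    have h3 : v ∈ (toN16 D c R Λ).2 := hu
    exact h.2 h3
  | cast i =>
    intro u hu
    obtain ⟨v, hv, rfl⟩ := exists_toN16 D Λ hle i u hu
    exact (mem_toN16 D Λ' v).1 (h.1 hv) i

lemma toN16_surjective (N : Submodule R (LynLe d c → R) × Submodule R (Lyn d (c + 1) → R))
    (hN : Hmg (lynSys D c).lv N.1) :
    ∃ Λ : Fin (c + 1) → Submodule R (FreeLieAlgebra R (Fin d)),
      (∀ i : Fin (c + 1), Λ i ≤ comp R d (i + 1)) ∧ toN16 D c R Λ = N := by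
  refine ⟨Fin.snoc (fun i : Fin c => N.1.map (Lm16 D c R ((i : ℕ) + 1)))
    (N.2.map (LK16 D c R)), ?_, ?_⟩
  · intro i
    induction i using Fin.lastCases with
    | last =>
      rw [Fin.snoc_last, Fin.val_last]
      rintro _ ⟨v, _, rfl⟩
      rw [← LK16_range D c R]
      exact ⟨v, rfl⟩
    | cast i =>
      rw [Fin.snoc_castSucc]
      rintro _ ⟨v, _, rfl⟩
      exact Lm16_mem D _ (Nat.succ_ne_zero _) v
  · refine Prod.ext ?_ ?_
    · ext v
      rw [mem_toN16]
      simp only [Fin.snoc_castSucc]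
      constructor
      · intro h
        have h1 : ∀ i : Fin c, cut (lynSys D c).lv (i + 1) v ∈ N.1 := by
          intro i
          obtain ⟨v', hv', h2⟩ := h i
          rw [Lm16_apply, Lm16_apply] at h2
          rw [← LC16_injective D c R h2]
          exact hN v' hv' _
        rw [sum_cut16 D v]
        exact N.1.sum_mem fun i _ => h1 i
      · intro h i
        exact ⟨v, h, rfl⟩
    · change (Submodule.comap (LK16 D c R) (Fin.snoc (α := fun _ => Submodule R _) _ _
        (Fin.last c))) = N.2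
      rw [Fin.snoc_last, Submodule.comap_map_eq_of_injective (LK16_injective D c R)]

variable (c R) in
/-- graded ideals in coordinates -/
noncomputable def coord16 :
    {Λ // IsGr R (c + 1) d Λ} ≃o {N // Idl (lynSys D c) R N} where
  toEquiv := Equiv.ofBijective
    (fun Λ => ⟨toN16 D c R Λ.1, idl_toN16 D Λ.1 Λ.2⟩) ⟨fun Λ Λ' h => Subtype.ext
      (le_antisymm (le_of_toN16 D Λ.2.le (congrArg Subtype.val h).le)
        (le_of_toN16 D Λ'.2.le (congrArg Subtype.val h).ge)), by
      rintro ⟨N, hN⟩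
      obtain ⟨Λ, hle, rfl⟩ := toN16_surjective D N hN.hom
      exact ⟨⟨Λ, isGr_of_idl16 D Λ hle hN⟩, rfl⟩⟩
  map_rel_iff' := by
    intro Λ Λ'
    exact ⟨fun h => le_of_toN16 D Λ.2.le h, fun h => toN16_mono D h⟩

lemma coord16_apply (Λ : {Λ // IsGr R (c + 1) d Λ}) :
    (coord16 D c R Λ).1 = toN16 D c R Λ.1 := rfl

end

theorem exists_coord {d : ℕ} (D : LynData d) (c : ℕ) (R : Type) [CommRing R] :
    ∃ φ : {Λ // IsGr R (c + 1) d Λ} ≃o {N // Idl (lynSys D c) R N},
      ∀ Λ, idx R (c + 1) d Λ.1 = cardQuot (φ Λ).1.1 * cardQuot (φ Λ).1.2 :=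
  ⟨coord16 D c R, fun Λ => by rw [coord16_apply]; exact idx_toN16 D Λ.1⟩

theorem numIdeals_lyn {d : ℕ} (D : LynData d) (c : ℕ) (R : Type) [CommRing R] (n : ℕ)
    (hn : n ≠ 0) : numIdeals R (c + 1) d n = Nat.card {N // (lynSys D c).P R n N} := by
  unfold numIdeals
  refine Nat.card_congr (Equiv.ofBijective
    (fun Λ => ⟨toN16 D c R Λ.1, ?_⟩) ⟨?_, ?_⟩)
  · have h := idl_toN16 D Λ.1 ⟨Λ.2.1.le, Λ.2.1.lie⟩
    exact ⟨h.hom, h.t, h.t4, by rw [← idx_toN16]; exact Λ.2.2⟩
  · intro Λ Λ' h
    have h' := congrArg Subtype.val h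
    exact Subtype.ext (le_antisymm (le_of_toN16 D Λ.2.1.le h'.le)
      (le_of_toN16 D Λ'.2.1.le h'.ge))
  · rintro ⟨N, hN⟩
    obtain ⟨Λ, hle, rfl⟩ := toN16_surjective D N hN.1
    have hG := isGr_of_idl16 D Λ hle ⟨hN.1, hN.2.1, hN.2.2.1⟩
    have hidx : idx R (c + 1) d Λ = n := by rw [idx_toN16 D]; exact hN.2.2.2
    refine ⟨⟨Λ, ⟨hG.le, ?_, hG.lie⟩, hidx⟩, rfl⟩
    intro i h0
    apply hn
    rw [← hidx, idx]
    exact Finset.prod_eq_zero (Finset.mem_univ i) h0

end Flag

end GradedTop
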