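import Pool.Agent.Lib.GradedFlag.Coord

/-!
# Dimensions of graded ideals over a field in Lyndon coordinates
-/

namespace GradedTop

namespace Flag

open GradedTop.Four Submodule Module

section

variable {d : ℕ} (D : LynData d) (c : ℕ) (F : Type) [Field F]

include D in
lemma finite_comp16 (n : ℕ) : Module.Finite F (comp F d (n + 1)) := by
  rw [D.spn F n]
  exact FiniteDimensional.span_of_finite F (Set.finite_range _)

lemma finrank_comap16 {V : Type} [AddCommGroup V] [Module F V] (L C : Submodule F V) (h : L ≤ C) :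
    finrank F (L.comap C.subtype) = finrank F L :=
  (Submodule.comapSubtypeEquivOfLe h).finrank_eq

lemma finrank_toN16_1 (Λ : Fin (c + 1) → Submodule F (FreeLieAlgebra F (Fin d)))
    (hle : ∀ i : Fin (c + 1), Λ i ≤ comp F d (i + 1)) :
    ∑ i : Fin c, finrank F (Λ i.castSucc) +
      finrank F ((LynLe d c → F) ⧸ (toN16 D c F Λ).1) = Fintype.card (LynLe d c) := by
  have hfin : ∀ i : Fin c, Module.Finite F (comp F d ((i : ℕ) + 1)) :=
    fun i => finite_comp16 D F i
  have h1 : finrank F ((LynLe d c → F) ⧸ (toN16 D c F Λ).1) =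
      ∑ i : Fin c, finrank F (comp F d ((i : ℕ) + 1) ⧸
        (Λ i.castSucc).comap (comp F d (i + 1)).subtype) := by
    rw [(Submodule.Quotient.equiv _ _ _ (map_FF16 D Λ)).finrank_eq,
      (Submodule.quotientPi
        (fun i : Fin c => (Λ i.castSucc).comap (comp F d (i + 1)).subtype)).finrank_eq,
      Module.finrank_pi_fintype]
  have h2 : Fintype.card (LynLe d c) = ∑ i : Fin c, finrank F (comp F d ((i : ℕ) + 1)) := by
    rw [← Module.finrank_pi_fintype, ← (LinearEquiv.ofBijective (FF16 D c F)
      (FF16_bijective D)).finrank_eq, Module.finrank_fintype_fun_eq_card]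
  rw [h1, h2, ← Finset.sum_add_distrib]
  refine Finset.sum_congr rfl fun i _ => ?_
  rw [← finrank_comap16 F (Λ i.castSucc) (comp F d (i + 1)) (hle i.castSucc), add_comm]
  exact Submodule.finrank_quotient_add_finrank _

lemma finrank_toN16_2 (Λ : Fin (c + 1) → Submodule F (FreeLieAlgebra F (Fin d)))
    (hle : ∀ i : Fin (c + 1), Λ i ≤ comp F d (i + 1)) :
    finrank F (Λ (Fin.last c)) +
      finrank F ((Lyn d (c + 1) → F) ⧸ (toN16 D c F Λ).2) = Fintype.card (Lyn d (c + 1)) := by
  have h1 : (Λ (Fin.last c)) = (toN16 D c F Λ).2.map (LK16 D c F) := by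
    change _ = Submodule.map (LK16 D c F) (Submodule.comap (LK16 D c F) _)
    rw [Submodule.map_comap_eq, LK16_range, inf_eq_right.2]
    have := hle (Fin.last c)
    rwa [Fin.val_last] at this
  have h2 : finrank F (Λ (Fin.last c)) = finrank F (toN16 D c F Λ).2 := by
    conv_lhs => rw [h1]
    exact (Submodule.equivMapOfInjective _ (LK16_injective D c F) _).symm.finrank_eq
  rw [h2, add_comm, Submodule.finrank_quotient_add_finrank, Module.finrank_fintype_fun_eq_card]

end

theorem exists_coord_field {d : ℕ} (D : LynData d) (c : ℕ) (F : Type) [Field F] :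
    ∃ φ : {Λ // IsGr F (c + 1) d Λ} ≃o {N // Idl (lynSys D c) F N},
      ∀ Λ, ∑ i, finrank F (Λ.1 i) + cdF (lynSys D c) F (φ Λ) =
        Fintype.card (LynLe d c) + Fintype.card (Lyn d (c + 1)) := by
  refine ⟨coord16 D c F, fun Λ => ?_⟩
  have h1 := finrank_toN16_1 D c F Λ.1 Λ.2.le
  have h2 := finrank_toN16_2 D c F Λ.1 Λ.2.le
  rw [cdF, coord16_apply, Fin.sum_univ_castSucc]
  omega

end Flag

end GradedTop
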