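import Pool.Agent.Lib.GradedFlag.Def

/-!
# The leading coefficient of a topological zeta function
-/

namespace GradedTop

namespace Flag

open Filter Topology Polynomial

/-- `upper_core` together with the identity between `Z` and `γ`. -/
theorem upper_core_id {m : ℕ} (t : Fin m → Term) (χ : Fin m → ℤ) (r : ℤ) (Z : RatFunc ℚ) (s₀ : ℕ)
    (hreal : ∀ s : ℕ, s₀ ≤ s → ∃ z : Fin m → ℝ,
      (∀ i, Tendsto (fun q : ℝ => (q - 1) ^ r * (t i).val q (q ^ (-(s : ℤ))))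
        (𝓝[>] 1) (𝓝 (z i))) ∧
      ((Z.eval (RingHom.id ℚ) (s : ℚ) : ℚ) : ℝ) = ∑ i, (χ i : ℝ) * z i)
    (ℓ : ℕ) [Fact ℓ.Prime] (U : Filter ℕ) [U.NeBot] (q : ℕ → ℕ) (hq2 : ∀ N, 2 ≤ q N)
    (hq1 : Tendsto (fun N => (q N : ℚ_[ℓ])) U (𝓝 1)) (hqn : ∀ N, ‖(q N : ℚ_[ℓ])‖ = 1)
    (n : Fin m → ℕ → ℤ) (hn : ∀ i, Tendsto (fun N => (n i N : ℚ_[ℓ])) U (𝓝 (χ i : ℚ_[ℓ])))
    (a : ℕ → ℕ → ℤ)
    (ha : ∀ N, PowerSeries.mk (fun k => (a N k : ℚ)) =
      ∑ i, PowerSeries.C ((n i N : ℤ) : ℚ) * (t i).series (q N : ℚ)) :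
    ∃ (J : List (ℤ × ℕ)) (B s₁ : ℕ) (Q : ℕ → ℚ_[ℓ][X]) (γ : ℚ_[ℓ][X]), (∀ ab ∈ J, 1 ≤ ab.2) ∧
      (∀ N, (Q N).natDegree ≤ B) ∧
      (∀ N, ((Q N : ℚ_[ℓ][X]) : PowerSeries ℚ_[ℓ]) =
        ((DP J (q N : ℚ_[ℓ]) : ℚ_[ℓ][X]) : PowerSeries ℚ_[ℓ]) *
          PowerSeries.mk (fun k => (a N k : ℚ_[ℓ]))) ∧
      (∀ b : ℕ, Tendsto (fun N => ((q N : ℚ_[ℓ]) - 1) ^ (r - (J.length : ℤ) + b) *
        (taylor 1 (Q N)).coeff b) U (𝓝 (γ.coeff b))) ∧
      (∀ b : ℕ, 0 < r - (J.length : ℤ) + b → γ.coeff b = 0) ∧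
      (∀ s : ℕ, s₁ ≤ s → algebraMap ℚ ℚ_[ℓ]
        ((Del J).eval (s : ℚ) * Z.eval (RingHom.id ℚ) (s : ℚ)) = γ.eval (-(s : ℚ_[ℓ]))) := by
  obtain ⟨J, L, s₁, hJ, hL, hlim⟩ := assemble t χ r Z s₀ hreal
  set Q : ℕ → ℚ_[ℓ][X] := fun N => ∑ i, C ((n i N : ℤ) : ℚ_[ℓ]) * QT (t i) (L i) (q N : ℚ_[ℓ])
    with hQdef
  set B : ℕ := ∑ i, (((L i).map Prod.snd).sum + (t i).num.natDegree) with hB
  have hQdeg : ∀ N, (Q N).natDegree ≤ B := by
    intro N
    refine natDegree_sum_le_of_forall_le _ _ fun i _ => ?_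
    refine (natDegree_C_mul_le _ _).trans ((QT_natDegree _ _ _).trans ?_)
    exact Finset.single_le_sum (f := fun i => ((L i).map Prod.snd).sum + (t i).num.natDegree)
      (fun _ _ => Nat.zero_le _) (Finset.mem_univ i)
  have hQser : ∀ N, ((Q N : ℚ_[ℓ][X]) : PowerSeries ℚ_[ℓ]) =
        ((DP J (q N : ℚ_[ℓ]) : ℚ_[ℓ][X]) : PowerSeries ℚ_[ℓ]) *
          PowerSeries.mk (fun k => (a N k : ℚ_[ℓ])) := by
    intro N
    set Q0 : ℚ[X] := ∑ i, C ((n i N : ℤ) : ℚ) * QT (t i) (L i) (q N : ℚ) with hQ0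
    have h1 : (Q0 : PowerSeries ℚ) = ((DP J (q N : ℚ) : ℚ[X]) : PowerSeries ℚ) *
        PowerSeries.mk (fun k => (a N k : ℚ)) := by
      rw [ha N, Finset.mul_sum, hQ0]
      have : ((∑ i, C ((n i N : ℤ) : ℚ) * QT (t i) (L i) (q N : ℚ) : ℚ[X]) : PowerSeries ℚ) =
          ∑ i, ((C ((n i N : ℤ) : ℚ) * QT (t i) (L i) (q N : ℚ) : ℚ[X]) : PowerSeries ℚ) := by
        rw [← Polynomial.coeToPowerSeries.ringHom_apply, map_sum]
        rfl
      rw [this]
      refine Finset.sum_congr rfl fun i _ => ?_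
      rw [Polynomial.coe_mul, Polynomial.coe_C, ← DP_mul_series (t i) J (L i) (hL i) (q N)]
      ring
    have h2 : Q0.map (algebraMap ℚ ℚ_[ℓ]) = Q N := by
      rw [hQ0, hQdef, Polynomial.map_sum]
      refine Finset.sum_congr rfl fun i _ => ?_
      rw [Polynomial.map_mul, Polynomial.map_C, QT_map, map_intCast, map_natCast]
    have h3 := congrArg (PowerSeries.map (algebraMap ℚ ℚ_[ℓ])) h1
    rw [map_mul, ← Polynomial.polynomial_map_coe, h2, ← Polynomial.polynomial_map_coe, DP_map,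
      map_natCast] at h3
    rw [h3]
    congr 1
  have hu0 : ∀ N, (q N : ℚ_[ℓ]) - 1 ≠ 0 := by
    intro N
    have := zpow_ne_one_K (K := ℚ_[ℓ]) (q N) (hq2 N) 1 one_ne_zero
    rw [zpow_one] at this
    exact sub_ne_zero.2 this
  have hu : Tendsto (fun N => (q N : ℚ_[ℓ]) - 1) U (𝓝 0) := by
    simpa using hq1.sub_const 1
  have hG : ∀ s, s₁ ≤ s → Tendsto (fun N => ((q N : ℚ_[ℓ]) - 1) ^ (r - (J.length : ℤ)) *
      (Q N).eval ((1 + ((q N : ℚ_[ℓ]) - 1)) ^ (-(s : ℤ)))) U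
      (𝓝 (algebraMap ℚ ℚ_[ℓ] ((Del J).eval (s : ℚ) * Z.eval (RingHom.id ℚ) (s : ℚ)))) := by
    intro s hs
    refine (hlim ℚ_[ℓ] U q hq2 hq1 n hn s hs).congr fun N => ?_
    rw [add_sub_cancel]
  obtain ⟨γ, hγ1, hγ2, hγ3⟩ := vander U B s₁ (r - (J.length : ℤ)) (fun N => (q N : ℚ_[ℓ]) - 1) hu0 hu
    Q hQdeg _ hG
  have hcoef : ∀ N k, ‖(Q N).coeff k‖ ≤ 1 := by
    intro N k
    rw [← Polynomial.coeff_coe, hQser N]
    refine norm_coeff_mul _ _ (norm_coeff_DP J _ (hqn N)) (fun j => ?_) k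
    rw [PowerSeries.coeff_mk]
    exact Padic.norm_int_le_one _
  refine ⟨J, B, s₁, Q, γ, hJ, hQdeg, hQser, hγ2, ?_, hγ3⟩
  intro b hb
  obtain ⟨k, hk⟩ : ∃ k : ℕ, r - (J.length : ℤ) + b = (k : ℤ) + 1 :=
    ⟨(r - (J.length : ℤ) + b - 1).toNat, by omega⟩
  refine tendsto_nhds_unique (hγ2 b) ?_
  rw [hk]
  have h1 : Tendsto (fun N => ‖((q N : ℚ_[ℓ]) - 1) ^ (k + 1)‖) U (𝓝 0) := by
    have := (hu.pow (k + 1)).norm
    simpa using this
  refine squeeze_zero_norm (fun N => ?_) h1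
  rw [norm_mul]
  have h2 := norm_taylor (Q N) (hcoef N) b
  have h3 : ((q N : ℚ_[ℓ]) - 1) ^ ((k : ℤ) + 1) = ((q N : ℚ_[ℓ]) - 1) ^ (k + 1) := by
    rw [← zpow_natCast]; push_cast; rfl
  rw [h3]
  exact mul_le_of_le_one_right (norm_nonneg _) h2

lemma Del_leadingCoeff (J : List (ℤ × ℕ)) (hJ : ∀ ab ∈ J, 1 ≤ ab.2) :
    (Del J).coeff J.length = (J.map fun ab => (ab.2 : ℚ)).prod := by
  induction J with
  | nil => simp [Del]
  | cons ab J ih =>
    have hJ' : ∀ ab' ∈ J, 1 ≤ ab'.2 := fun ab' h' => hJ ab' (List.mem_cons_of_mem _ h')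
    have h1 : Del (ab :: J) = (C (ab.2 : ℚ) * X - C (ab.1 : ℚ)) * Del J := by simp [Del]
    have h2 : (C (ab.2 : ℚ) * X - C (ab.1 : ℚ)).natDegree ≤ 1 := by compute_degree
    have h3 : (Del J).natDegree ≤ J.length := (Del_natDegree J hJ').2.le
    rw [h1, List.length_cons, add_comm, coeff_mul_add_eq_of_natDegree_le h2 h3, ih hJ', List.map_cons,
      List.prod_cons]
    congr 1
    rw [coeff_sub, coeff_C_mul, coeff_X_one, coeff_C_of_ne_zero one_ne_zero, mul_one, sub_zero]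

/-- The rational leading coefficient of `Z`. -/
lemma exists_lc (J : List (ℤ × ℕ)) (hJ : ∀ ab ∈ J, 1 ≤ ab.2) {K : Type} [Field K] [CharZero K]
    [Algebra ℚ K] (Z : RatFunc ℚ) (γ : K[X]) (s₁ : ℕ)
    (h : ∀ s : ℕ, s₁ ≤ s → algebraMap ℚ K ((Del J).eval (s : ℚ) * Z.eval (RingHom.id ℚ) (s : ℚ)) =
      γ.eval (-(s : K))) (ρ b₀ : ℕ) (hb : J.length = ρ + b₀) (hγ : ∀ b, b₀ < b → γ.coeff b = 0) :
    ∃ lc : ℚ, Tendsto (fun s : ℕ => (s : ℝ) ^ ρ * ((Z.eval (RingHom.id ℚ) (s : ℚ) : ℚ) : ℝ))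
        atTop (𝓝 (lc : ℝ)) ∧
      algebraMap ℚ K ((J.map fun ab => (ab.2 : ℚ)).prod * lc) = (-1) ^ b₀ * γ.coeff b₀ ∧
      (lc ≠ 0 ↔ Z ≠ 0 ∧ Z.intDegree = -(ρ : ℤ)) ∧ (Z ≠ 0 → Z.intDegree ≤ -(ρ : ℤ)) := by
  obtain ⟨hc1, hc2⟩ := degree_compare J hJ Z γ s₁ h
  have hγd : γ.natDegree ≤ b₀ := natDegree_le_iff_coeff_eq_zero.2 hγ
  by_cases hZ : Z = 0
  · have h1 : γ = 0 := by
      by_contra hne
      exact hc2 hne hZ
    refine ⟨0, ?_, ?_, ?_, fun h => absurd hZ h⟩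
    · subst hZ; simp
    · rw [h1]; simp
    · simp [hZ]
  obtain ⟨hγ0, hdeg⟩ := hc1 hZ
  have hden : Z.denom ≠ 0 := Z.denom_ne_zero
  have hmon : Z.denom.Monic := RatFunc.monic_denom Z
  have hnum : Z.num ≠ 0 := RatFunc.num_ne_zero hZ
  set D := Z.denom.natDegree with hD
  have hle : Z.num.natDegree + ρ ≤ D := by
    rw [RatFunc.intDegree] at hdeg
    omega
  obtain ⟨hD0, hDdeg⟩ := Del_natDegree J hJ
  set P1 : K[X] := (Del J * Z.num).map (algebraMap ℚ K) with hP1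
  set P2 : K[X] := γ.comp (-X) * Z.denom.map (algebraMap ℚ K) with hP2
  have hinf : {s : ℕ | s₁ ≤ s ∧ Z.denom.eval (s : ℚ) ≠ 0}.Infinite := by
    have h1 : {s : ℕ | Z.denom.eval (s : ℚ) = 0}.Finite := by
      have h2 : {x : ℚ | Z.denom.IsRoot x}.Finite := Polynomial.finite_setOfPred_isRoot hden
      exact h2.preimage (fun a _ b _ hab => Nat.cast_injective hab)
    have h3 : {s : ℕ | s₁ ≤ s}.Infinite := Set.infinite_of_injective_forall_mem
      (f := fun n : ℕ => s₁ + n) (fun a b hab => by simpa using hab) (fun n => by simp)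
    refine (h3.sdiff h1).mono ?_
    intro s hs
    exact ⟨hs.1, hs.2⟩
  have heval : ∀ s : ℕ, Z.eval (RingHom.id ℚ) (s : ℚ) =
      Z.num.eval (s : ℚ) / Z.denom.eval (s : ℚ) := by
    intro s
    rw [RatFunc.eval]
    simp
  have hPP : P1 = P2 := by
    refine Polynomial.eq_of_infinite_eval_eq _ _ ?_
    refine (hinf.image (f := fun s : ℕ => (s : K)) (fun a _ b _ hab => Nat.cast_injective hab)).mono ?_
    rintro _ ⟨s, ⟨hs1, hs2⟩, rfl⟩
    have h4 := h s hs1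
    rw [heval, ← mul_div_assoc, map_div₀, div_eq_iff (by rwa [Ne, map_eq_zero])] at h4
    have h6 : ∀ P : ℚ[X], (P.map (algebraMap ℚ K)).eval (s : K) = algebraMap ℚ K (P.eval (s : ℚ)) := by
      intro P
      rw [eval_map, ← map_natCast (algebraMap ℚ K) s, eval₂_at_apply]
    rw [Set.mem_ofPred_eq, hP1, hP2, h6, eval_mul, eval_mul, h6, h4, eval_comp, eval_neg, eval_X]
  have hcompc : ∀ b, (γ.comp (-X)).coeff b = (-1) ^ b * γ.coeff b := by
    intro b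
    have h1 : (-X : K[X]) = C (-1) * X := by simp
    rw [h1, comp_C_mul_X_coeff, mul_comm]
  have hcompd : (γ.comp (-X)).natDegree ≤ b₀ := by
    rw [natDegree_comp, natDegree_neg, natDegree_X, mul_one]; exact hγd
  refine ⟨Z.num.coeff (D - ρ), ?_, ?_, ?_, fun _ => by rw [RatFunc.intDegree]; omega⟩
  · -- the real limit
    set A : ℝ[X] := X ^ ρ * Z.num.map (algebraMap ℚ ℝ) with hA
    set E : ℝ[X] := Z.denom.map (algebraMap ℚ ℝ) with hE
    have hEm : E.Monic := hmon.map _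
    have hEd : E.natDegree = D := by rw [hE, natDegree_map]
    have hfun : ∀ s : ℕ, (s : ℝ) ^ ρ * ((Z.eval (RingHom.id ℚ) (s : ℚ) : ℚ) : ℝ) =
        A.eval (s : ℝ) / E.eval (s : ℝ) := by
      intro s
      have h6 : ∀ P : ℚ[X], (P.map (algebraMap ℚ ℝ)).eval (s : ℝ) = ((P.eval (s : ℚ) : ℚ) : ℝ) := by
        intro P
        rw [eval_map, ← map_natCast (algebraMap ℚ ℝ) s, eval₂_at_apply]; rfl
      rw [heval, hA, hE, eval_mul, eval_pow, eval_X, h6, h6]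
      push_cast
      ring
    have hAd : A.natDegree = ρ + Z.num.natDegree := by
      rw [hA, natDegree_mul (pow_ne_zero _ X_ne_zero) (by rwa [Ne, Polynomial.map_eq_zero]),
        natDegree_X_pow, natDegree_map]
    have hA0 : A ≠ 0 := mul_ne_zero (pow_ne_zero _ X_ne_zero) (by rwa [Ne, Polynomial.map_eq_zero])
    have hlim : Tendsto (fun x : ℝ => A.eval x / E.eval x) atTop (𝓝 ((Z.num.coeff (D - ρ) : ℚ) : ℝ)) := by
      rcases eq_or_lt_of_le hle with h1 | h1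
      · have h2 : A.degree = E.degree := by
          rw [degree_eq_natDegree hA0, degree_eq_natDegree hEm.ne_zero, hAd, hEd, ← h1, add_comm]
        have h3 := Polynomial.div_tendsto_atTop_leadingCoeff_div_of_degree_eq A E h2
        have h4 : A.leadingCoeff = ((Z.num.coeff (D - ρ) : ℚ) : ℝ) := by
          rw [hA, leadingCoeff_mul, leadingCoeff_X_pow, one_mul, leadingCoeff_map]
          have : D - ρ = Z.num.natDegree := by omega
          rw [this]; rfl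
        rw [h4, hEm.leadingCoeff, div_one] at h3
        exact h3
      · have h2 : A.degree < E.degree := by
          rw [degree_eq_natDegree hA0, degree_eq_natDegree hEm.ne_zero, hAd, hEd]
          exact_mod_cast (by omega : ρ + Z.num.natDegree < D)
        have h3 := Polynomial.div_tendsto_atTop_zero_of_degree_lt A E h2
        have h4 : Z.num.coeff (D - ρ) = 0 := coeff_eq_zero_of_natDegree_lt (by omega)
        rw [h4, Rat.cast_zero]
        exact h3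
    refine (hlim.comp tendsto_natCast_atTop_atTop).congr fun s => ?_
    rw [hfun]; rfl
  · -- the comparison
    have h1 : P1.coeff (J.length + (D - ρ)) =
        algebraMap ℚ K ((J.map fun ab => (ab.2 : ℚ)).prod * Z.num.coeff (D - ρ)) := by
      rw [hP1, coeff_map, coeff_mul_add_eq_of_natDegree_le hDdeg.le (by omega), Del_leadingCoeff J hJ]
    have h2 : P2.coeff (b₀ + D) = (-1) ^ b₀ * γ.coeff b₀ := by
      rw [hP2, coeff_mul_add_eq_of_natDegree_le hcompd (by rw [natDegree_map]), hcompc, coeff_map, hD]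
      have h3 : Z.denom.coeff Z.denom.natDegree = 1 := hmon.coeff_natDegree
      rw [h3, map_one, mul_one]
    rw [← h1, ← h2, hPP]
    congr 1
    omega
  · constructor
    · intro h1
      refine ⟨hZ, ?_⟩
      have h2 : D - ρ ≤ Z.num.natDegree := le_natDegree_of_ne_zero h1
      rw [RatFunc.intDegree]
      omega
    · rintro ⟨_, h1⟩
      rw [RatFunc.intDegree] at h1
      have h2 : D - ρ = Z.num.natDegree := by omega
      rw [h2]
      exact leadingCoeff_ne_zero.2 hnum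

/-- The polynomial `1 + X + ... + X^(b-1)`. -/
noncomputable def GG (K : Type) [Field K] (b : ℕ) : K[X] := ∑ i ∈ Finset.range b, X ^ i

lemma one_sub_pow {K : Type} [Field K] (b : ℕ) : (1 - X ^ b : K[X]) = (1 - X) * GG K b := by
  rw [GG, mul_neg_geom_sum]

lemma GG_eval {K : Type} [Field K] (b : ℕ) : (GG K b).eval 1 = (b : K) := by
  rw [GG, eval_geom_sum]; simp

lemma prod_one_sub {K : Type} [Field K] (ρ : ℕ) :
    (∏ s ∈ Finset.Icc 1 ρ, (1 - X ^ s : K[X])) =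
      (1 - X) ^ ρ * ∏ s ∈ Finset.Icc 1 ρ, GG K s := by
  rw [Finset.prod_congr rfl fun s _ => one_sub_pow (K := K) s, Finset.prod_mul_distrib,
    Finset.prod_const, Nat.card_Icc]
  simp

lemma prod_GG_eval {K : Type} [Field K] (ρ : ℕ) :
    (∏ s ∈ Finset.Icc 1 ρ, GG K s).eval 1 = (ρ.factorial : K) := by
  rw [eval_prod, Finset.prod_congr rfl fun s _ => GG_eval (K := K) s]
  induction ρ with
  | zero => simp
  | succ n ih => rw [Finset.prod_Icc_succ_top (by omega), ih, Nat.factorial_succ, Nat.cast_mul, mul_comm]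

lemma DP_one_eq {K : Type} [Field K] (J : List (ℤ × ℕ)) :
    DP J (1 : K) = (1 - X) ^ J.length * (J.map fun ab => GG K ab.2).prod := by
  induction J with
  | nil => simp [DP_nil]
  | cons ab J ih =>
    rw [DP_cons, ih, List.length_cons, List.map_cons, List.prod_cons, one_zpow, C_1, one_mul,
      one_sub_pow]
    ring

lemma DP_GG_eval {K : Type} [Field K] (J : List (ℤ × ℕ)) :
    ((J.map fun ab => GG K ab.2).prod).eval 1 = (J.map fun ab => (ab.2 : K)).prod := by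
  induction J with
  | nil => simp
  | cons ab J ih => rw [List.map_cons, List.prod_cons, eval_mul, ih, GG_eval, List.map_cons,
      List.prod_cons]

/-- Taylor coefficients of a quotient. -/
lemma taylor_low {K : Type} [Field K] (P H S : K[X]) (b₀ : ℕ) (h : P * H = (1 - X) ^ b₀ * S)
    (hH : H.eval 1 ≠ 0) :
    (taylor 1 P).coeff b₀ * H.eval 1 = (-1) ^ b₀ * S.eval 1 := by
  have h1 : taylor 1 P * taylor 1 H = (-1) ^ b₀ * (X ^ b₀ * taylor 1 S) := by
    rw [← taylor_mul, h, taylor_mul, taylor_pow]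
    have : taylor 1 (1 - X : K[X]) = -X := by
      rw [map_sub, taylor_one, taylor_X]; simp
    rw [this, neg_pow]
    ring
  have hH0 : (taylor 1 H).coeff 0 = H.eval 1 := taylor_coeff_zero _ _
  have hS0 : (taylor 1 S).coeff 0 = S.eval 1 := taylor_coeff_zero _ _
  have hneg : ((-1) ^ b₀ : K[X]) = C ((-1) ^ b₀) := by simp
  have hsmall : ∀ k, k < b₀ → (taylor 1 P).coeff k = 0 := by
    intro k
    induction k using Nat.strong_induction_on with
    | _ k ih =>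
      intro hk
      have h2 := congrArg (fun Q => Q.coeff k) h1
      simp only [hneg, coeff_C_mul] at h2
      rw [coeff_X_pow_mul', if_neg (by omega), mul_zero, coeff_mul,
        Finset.sum_eq_single (k, 0)] at h2
      · rw [hH0] at h2
        exact (mul_eq_zero.1 h2).resolve_right hH
      · rintro ⟨i, j⟩ hij hne
        rw [Finset.HasAntidiagonal.mem_antidiagonal] at hij
        simp only at hij ⊢
        by_cases hi : i = k
        · exfalso
          apply hne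
          subst hi
          have : j = 0 := by omega
          rw [this]
        · rw [ih i (by omega) (by omega), zero_mul]
      · intro hcon
        exact absurd (Finset.HasAntidiagonal.mem_antidiagonal.2 (Nat.add_zero _)) hcon
  have h2 := congrArg (fun Q => Q.coeff b₀) h1
  simp only [hneg, coeff_C_mul] at h2
  rw [coeff_X_pow_mul', if_pos le_rfl, Nat.sub_self, hS0, coeff_mul,
    Finset.sum_eq_single (b₀, 0)] at h2
  · rw [hH0] at h2; exact h2
  · rintro ⟨i, j⟩ hij hne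
    rw [Finset.HasAntidiagonal.mem_antidiagonal] at hij
    simp only at hij ⊢
    by_cases hi : i = b₀
    · exfalso
      apply hne
      subst hi
      have : j = 0 := by omega
      rw [this]
    · rw [hsmall i (by omega), zero_mul]
  · intro hcon
    exact absurd (Finset.HasAntidiagonal.mem_antidiagonal.2 (Nat.add_zero _)) hcon

theorem flag_core {m : ℕ} (t : Fin m → Term) (χ : Fin m → ℤ) (ρ : ℕ) (Z : RatFunc ℚ) (s₀ : ℕ)
    (hreal : ∀ s : ℕ, s₀ ≤ s → ∃ z : Fin m → ℝ,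
      (∀ i, Tendsto (fun q : ℝ => (q - 1) ^ (ρ : ℤ) * (t i).val q (q ^ (-(s : ℤ))))
        (𝓝[>] 1) (𝓝 (z i))) ∧
      ((Z.eval (RingHom.id ℚ) (s : ℚ) : ℚ) : ℝ) = ∑ i, (χ i : ℝ) * z i)
    (ℓ : ℕ) [Fact ℓ.Prime] (U : Filter ℕ) [U.NeBot] (q : ℕ → ℕ) (hq2 : ∀ N, 2 ≤ q N)
    (hq1 : Tendsto (fun N => (q N : ℚ_[ℓ])) U (𝓝 1)) (hqn : ∀ N, ‖(q N : ℚ_[ℓ])‖ = 1)
    (n : Fin m → ℕ → ℤ) (hn : ∀ i, Tendsto (fun N => (n i N : ℚ_[ℓ])) U (𝓝 (χ i : ℚ_[ℓ])))
    (a : ℕ → ℕ → ℤ)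
    (ha : ∀ N, PowerSeries.mk (fun k => (a N k : ℚ)) =
      ∑ i, PowerSeries.C ((n i N : ℤ) : ℚ) * (t i).series (q N : ℚ))
    (c : ℕ → ℚ_[ℓ]) (hc : ∀ k, Tendsto (fun N => (a N k : ℚ_[ℓ])) U (𝓝 (c k)))
    (R : Polynomial ℚ_[ℓ])
    (hR : (R : PowerSeries ℚ_[ℓ]) =
      (∏ s ∈ Finset.Icc 1 ρ, (1 - (PowerSeries.X : PowerSeries ℚ_[ℓ]) ^ s)) * PowerSeries.mk c) :
    ∃ lc : ℚ, Tendsto (fun s : ℕ => (s : ℝ) ^ ρ * ((Z.eval (RingHom.id ℚ) (s : ℚ) : ℚ) : ℝ))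
        atTop (𝓝 (lc : ℝ)) ∧ (ρ.factorial : ℚ_[ℓ]) * (lc : ℚ_[ℓ]) = R.eval 1 ∧
      (lc ≠ 0 ↔ Z ≠ 0 ∧ Z.intDegree = -(ρ : ℤ)) ∧ (Z ≠ 0 → Z.intDegree ≤ -(ρ : ℤ)) := by
  obtain ⟨J, B, s₁, Q, γ, hJ, hQdeg, hQser, hγ2, hγ3, hγ4⟩ :=
    upper_core_id t χ ρ Z s₀ hreal ℓ U q hq2 hq1 hqn n hn a ha
  -- the limit polynomial
  set e : ℕ → ℚ_[ℓ] := fun k => PowerSeries.coeff k
    (((DP J (1 : ℚ_[ℓ]) : ℚ_[ℓ][X]) : PowerSeries ℚ_[ℓ]) * PowerSeries.mk c) with he
  have hcoef : ∀ k, Tendsto (fun N => (Q N).coeff k) U (𝓝 (e k)) := by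
    intro k
    rw [he]
    simp only [PowerSeries.coeff_mul]
    have : ∀ N, (Q N).coeff k = ∑ x ∈ Finset.HasAntidiagonal.antidiagonal k,
        (DP J (q N : ℚ_[ℓ])).coeff x.1 * (a N x.2 : ℚ_[ℓ]) := by
      intro N
      rw [← Polynomial.coeff_coe, hQser N, PowerSeries.coeff_mul]
      refine Finset.sum_congr rfl fun x _ => ?_
      rw [Polynomial.coeff_coe, PowerSeries.coeff_mk]
    simp only [this, Polynomial.coeff_coe, PowerSeries.coeff_mk]
    refine tendsto_finsetSum _ fun x _ => ?_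
    exact (DP_coeff_tendsto U J _ hq1 x.1).mul (hc x.2)
  have he0 : ∀ k, B < k → e k = 0 := by
    intro k hk
    have h1 : Tendsto (fun N => (Q N).coeff k) U (𝓝 0) := by
      refine (tendsto_const_nhds (x := (0 : ℚ_[ℓ]))).congr fun N => ?_
      rw [coeff_eq_zero_of_natDegree_lt]
      exact lt_of_le_of_lt (hQdeg N) hk
    exact tendsto_nhds_unique (hcoef k) h1
  set P : ℚ_[ℓ][X] := ∑ k ∈ Finset.range (B + 1), C (e k) * X ^ k with hP
  have hPcoeff : ∀ k, P.coeff k = e k := by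
    intro k
    rw [hP, finsetSum_coeff]
    simp only [coeff_C_mul, coeff_X_pow, mul_ite, mul_one, mul_zero]
    rw [Finset.sum_ite_eq]
    split_ifs with h
    · rfl
    · exact (he0 k (by simpa using h)).symm
  have hPdeg : P.natDegree ≤ B := by
    rw [hP]
    refine natDegree_sum_le_of_forall_le _ _ fun k hk => ?_
    exact (natDegree_C_mul_X_pow_le _ _).trans (by have := Finset.mem_range.1 hk; omega)
  have hPser : (P : PowerSeries ℚ_[ℓ]) =
      ((DP J (1 : ℚ_[ℓ]) : ℚ_[ℓ][X]) : PowerSeries ℚ_[ℓ]) * PowerSeries.mk c := by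
    ext k
    rw [Polynomial.coeff_coe, hPcoeff]
  have htay : ∀ b, Tendsto (fun N => (taylor 1 (Q N)).coeff b) U (𝓝 ((taylor 1 P).coeff b)) := by
    intro b
    rw [taylor_coeff_sum P B hPdeg b]
    refine (tendsto_finsetSum (Finset.range (B + 1)) (f := fun k N =>
      ((k.choose b : ℕ) : ℚ_[ℓ]) * (Q N).coeff k)
      (a := fun k => ((k.choose b : ℕ) : ℚ_[ℓ]) * P.coeff k)
      fun k _ => ?_).congr fun N => ?_
    · rw [hPcoeff]
      exact tendsto_const_nhds.mul (hcoef k)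
    · rw [taylor_coeff_sum (Q N) B (hQdeg N) b]
  -- the polynomial identity
  have hid : P * (∏ s ∈ Finset.Icc 1 ρ, (1 - X ^ s : ℚ_[ℓ][X])) = DP J (1 : ℚ_[ℓ]) * R := by
    apply Polynomial.coe_injective
    rw [Polynomial.coe_mul, Polynomial.coe_mul, hR, hPser]
    have h1 : ((∏ s ∈ Finset.Icc 1 ρ, (1 - X ^ s : ℚ_[ℓ][X]) : ℚ_[ℓ][X]) : PowerSeries ℚ_[ℓ]) =
        ∏ s ∈ Finset.Icc 1 ρ, (1 - (PowerSeries.X : PowerSeries ℚ_[ℓ]) ^ s) := by
      rw [← Polynomial.coeToPowerSeries.ringHom_apply, map_prod]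
      refine Finset.prod_congr rfl fun s _ => ?_
      rw [map_sub, map_one, map_pow, Polynomial.coeToPowerSeries.ringHom_apply, Polynomial.coe_X]
    rw [h1]
    ring
  rw [prod_one_sub, DP_one_eq] at hid
  set H := ∏ s ∈ Finset.Icc 1 ρ, GG ℚ_[ℓ] s with hH
  set G := (J.map fun ab => GG ℚ_[ℓ] ab.2).prod with hG
  have hHe : H.eval 1 = (ρ.factorial : ℚ_[ℓ]) := prod_GG_eval ρ
  have hGe : G.eval 1 = (J.map fun ab => (ab.2 : ℚ_[ℓ])).prod := DP_GG_eval J
  have hHne : H.eval 1 ≠ 0 := by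
    rw [hHe]; exact_mod_cast ρ.factorial_ne_zero
  have hGne : G.eval 1 ≠ 0 := by
    rw [hGe]
    refine List.prod_ne_zero ?_
    intro hmem
    obtain ⟨ab, h1, h2⟩ := List.mem_map.1 hmem
    have h3 := hJ ab h1
    have h4 : ab.2 = 0 := by exact_mod_cast h2
    omega
  have h1X : (1 - X : ℚ_[ℓ][X]) ≠ 0 := by
    intro h0
    have := congrArg (fun Q => Q.coeff 0) h0
    simp at this
  rcases le_or_gt ρ J.length with hJρ | hJρ
  · obtain ⟨b₀, hb₀⟩ := Nat.exists_eq_add_of_le hJρ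
    obtain ⟨lc, h1, h2, h3, h3'⟩ := exists_lc J hJ Z γ s₁ hγ4 ρ b₀ hb₀ (fun b hb => hγ3 b (by
      rw [hb₀]; push_cast; omega))
    refine ⟨lc, h1, ?_, h3, h3'⟩
    have h4 : γ.coeff b₀ = (taylor 1 P).coeff b₀ := by
      refine tendsto_nhds_unique (hγ2 b₀) ((htay b₀).congr fun N => ?_)
      have : (ρ : ℤ) - (J.length : ℤ) + (b₀ : ℤ) = 0 := by rw [hb₀]; push_cast; ring
      rw [this, zpow_zero, one_mul]
    have h5 : P * H = (1 - X) ^ b₀ * (G * R) := by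
      apply mul_left_cancel₀ (pow_ne_zero ρ h1X)
      rw [hb₀, pow_add] at hid
      linear_combination hid
    have h6 := taylor_low P H (G * R) b₀ h5 hHne
    rw [eval_mul] at h6
    have h7 : algebraMap ℚ ℚ_[ℓ] ((J.map fun ab => (ab.2 : ℚ)).prod * lc) = G.eval 1 * (lc : ℚ_[ℓ]) := by
      rw [map_mul, hGe, map_list_prod, List.map_map]
      congr 1
    rw [h7, h4] at h2
    have h8 : ((-1 : ℚ_[ℓ]) ^ b₀) * (-1) ^ b₀ = 1 := by
      rw [← mul_pow]; simp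
    apply mul_left_cancel₀ hGne
    rw [hHe] at h6
    linear_combination (ρ.factorial : ℚ_[ℓ]) * h2 + (-1) ^ b₀ * h6 + (G.eval 1 * R.eval 1) * h8
  · have hγ0 : γ = 0 := by
      ext b
      rw [coeff_zero]
      exact hγ3 b (by omega)
    have hZ : Z = 0 := by
      by_contra hne
      exact ((degree_compare J hJ Z γ s₁ hγ4).1 hne).1 hγ0
    refine ⟨0, ?_, ?_, ?_, fun h => absurd hZ h⟩
    · subst hZ; simp
    · obtain ⟨b, hb⟩ := Nat.exists_eq_add_of_lt hJρ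
      have h5 : P * ((1 - X) ^ (b + 1) * H) = G * R := by
        apply mul_left_cancel₀ (pow_ne_zero J.length h1X)
        rw [hb, add_assoc, pow_add] at hid
        linear_combination hid
      have h6 := congrArg (fun Q => Q.eval 1) h5
      simp only [eval_mul, eval_pow, eval_sub, eval_one, eval_X, sub_self] at h6
      rw [zero_pow (Nat.succ_ne_zero b), zero_mul, mul_zero] at h6
      have h7 := (mul_eq_zero.1 h6.symm).resolve_left hGne
      rw [h7]; simp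
    · simp [hZ]

end Flag

end GradedTop
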