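import Pool.Agent.Lib.GradedFour.Basic

/-!
# Complete flags of graded ideals of free nilpotent Lie algebras: definitions
-/

namespace GradedTop

namespace Flag

open GradedTop.Four Submodule Module

/-- A graded ideal of `f_{c,d}(R)`, given by its homogeneous components
`Λ 0, ..., Λ (c-1)` (`Λ i` has degree `i + 1`). -/
structure IsGr (R : Type) [CommRing R] (c d : ℕ)
    (Λ : Fin c → Submodule R (FreeLieAlgebra R (Fin d))) : Prop where
  le : ∀ i : Fin c, Λ i ≤ comp R d (i + 1)
  lie : ∀ i j : Fin c, (j : ℕ) = i + 1 → ∀ u ∈ Λ i, ∀ v ∈ comp R d 1, ⁅u, v⁆ ∈ Λ j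

/-- The number of complete flags `I_0 ≤ I_1 ≤ ... ≤ I_r` of graded ideals of `f_{c,d}(F)`, with
`dim I_t = t`. -/
noncomputable def numFlags (F : Type) [Field F] (c d r : ℕ) : ℕ :=
  Nat.card {I : Fin (r + 1) → Fin c → Submodule F (FreeLieAlgebra F (Fin d)) //
    (∀ t, IsGr F c d (I t)) ∧ Monotone I ∧ ∀ t, ∑ i, finrank F (I t i) = t}

/-- Lyndon words: nonempty words which are smaller than all their proper nonempty suffixes. -/
def IsLyn {d : ℕ} (w : List (Fin d)) : Prop :=
  w ≠ [] ∧ ∀ u v : List (Fin d), u ≠ [] → v ≠ [] → w = u ++ v → w < v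

/-- Lyndon words of length `n`. -/
def Lyn (d n : ℕ) : Type := {w : List (Fin d) // IsLyn w ∧ w.length = n}

/-- Lyndon words of length at most `n`. -/
def LynLe (d n : ℕ) : Type := {w : List (Fin d) // IsLyn w ∧ w.length ≤ n}

lemma finite_words (d n : ℕ) : {w : List (Fin d) | w.length ≤ n}.Finite := List.finite_length_le _ _

instance (d n : ℕ) : Finite (Lyn d n) :=
  Set.Finite.to_subtype ((finite_words d n).subset fun _ h => h.2.le)

instance (d n : ℕ) : Finite (LynLe d n) :=
  Set.Finite.to_subtype ((finite_words d n).subset fun _ h => h.2)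

noncomputable instance (d n : ℕ) : Fintype (Lyn d n) := Fintype.ofFinite _

noncomputable instance (d n : ℕ) : Fintype (LynLe d n) := Fintype.ofFinite _

/-- A basis of the free Lie algebra indexed by the Lyndon words, with integer structure constants,
over all commutative rings. -/
structure LynData (d : ℕ) where
  /-- the basis -/
  b : ∀ (R : Type) [CommRing R], List (Fin d) → FreeLieAlgebra R (Fin d)
  /-- the structure constants -/
  T : Fin d → List (Fin d) → List (Fin d) → ℤ
  spn : ∀ (R : Type) [CommRing R] (n : ℕ),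
    comp R d (n + 1) = span R (Set.range fun w : Lyn d (n + 1) => b R w.1)
  ind : ∀ (R : Type) [CommRing R],
    LinearIndependent R (fun w : {w : List (Fin d) // IsLyn w} => b R w.1)
  brk : ∀ (R : Type) [CommRing R] (n : ℕ) (w : Lyn d (n + 1)) (j : Fin d),
    ⁅b R w.1, FreeLieAlgebra.of R j⁆ = ∑ w' : Lyn d (n + 2), ((T j w'.1 w.1 : ℤ) : R) • b R w'.1

/-- The system of the free nilpotent Lie algebra of class `c + 1`. -/
def lynSys {d : ℕ} (D : LynData d) (c : ℕ) : Sys4 d (LynLe d c) (Lyn d (c + 1)) where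
  T j x y := if x.1.length = y.1.length + 1 then D.T j x.1 y.1 else 0
  T4 j x y := if y.1.length = c then D.T j x.1 y.1 else 0
  lv x := x.1.length
  w0 _ := 1
  w x := x.1.length
  w4 _ := c + 1
  hT j x y h := by
    by_contra hne
    exact h (if_neg hne)
  hT4 j x y h := by
    by_contra hne
    refine h (if_neg fun h' => hne ?_)
    rw [h']
  hlv _ _ h := h

section

variable {d : ℕ} {J K : Type} [Fintype J] [Fintype K]

/-- Graded ideals in coordinates. -/
structure Idl (S : Sys4 d J K) (A : Type) [CommRing A]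
    (N : Submodule A (J → A) × Submodule A (K → A)) : Prop where
  hom : Hmg S.lv N.1
  t : ∀ j, N.1.map (tl A (S.T j)) ≤ N.1
  t4 : ∀ j, N.1.map (tl A (S.T4 j)) ≤ N.2

/-- The codimension of a graded ideal. -/
noncomputable def cdF (S : Sys4 d J K) (F : Type) [Field F] (N : {N // Idl S F N}) : ℕ :=
  finrank F ((J → F) ⧸ N.1.1) + finrank F ((K → F) ⧸ N.1.2)

end

/-- The number of chains with codimensions exactly `S`. -/
noncomputable def nch {L : Type} [PartialOrder L] (cd : L → ℕ) (S : Finset ℕ) : ℕ :=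
  Nat.card {C : S → L // (∀ s, cd (C s) = s) ∧ ∀ s t : S, s ≤ t → C t ≤ C s}

/-- The power series `Y^s/(1-Y^s)`. -/
def gs (s : ℕ) : PowerSeries ℤ := PowerSeries.mk fun k => if s ∣ k ∧ k ≠ 0 then 1 else 0

end Flag

end GradedTop
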