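import Pool.Agent.Lib.GradedFlag.Def

/-!
# Theorem F, module F7: filtrations and flags (helper32)
-/

namespace GradedTop

namespace Flag

open GradedTop.Four Submodule Module

section

variable {d : ℕ} {J K : Type} [Fintype J] [Fintype K]

instance (S : Sys4 d J K) (F : Type) [Field F] [Finite F] : Finite {N // Idl S F N} := by
  have : Finite (Submodule F (J → F)) := Finite.of_injective _ SetLike.coe_injective
  have : Finite (Submodule F (K → F)) := Finite.of_injective _ SetLike.coe_injective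
  infer_instance

noncomputable instance (S : Sys4 d J K) (F : Type) [Field F] : OrderTop {N // Idl S F N} where
  top := ⟨⊤, ⟨fun _ _ _ => Submodule.mem_top, fun _ => le_top, fun _ => le_top⟩⟩
  le_top _ := ⟨le_top, le_top⟩

theorem cdF_top (S : Sys4 d J K) (F : Type) [Field F] : cdF S F ⊤ = 0 := by
  have h1 : finrank F ((J → F) ⧸ (⊤ : Submodule F (J → F))) = 0 :=
    finrank_eq_zero_of_subsingleton _ _
  have h2 : finrank F ((K → F) ⧸ (⊤ : Submodule F (K → F))) = 0 :=
    finrank_eq_zero_of_subsingleton _ _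
  show finrank F ((J → F) ⧸ (⊤ : Submodule F (J → F))) +
    finrank F ((K → F) ⧸ (⊤ : Submodule F (K → F))) = 0
  rw [h1, h2]

lemma quot_lt32 {F : Type} [Field F] {I : Type} [Fintype I] {M N : Submodule F (I → F)}
    (h : M < N) : finrank F ((I → F) ⧸ N) < finrank F ((I → F) ⧸ M) := by
  have h1 := Submodule.finrank_lt_finrank_of_lt h
  have h2 := Submodule.finrank_quotient_add_finrank M
  have h3 := Submodule.finrank_quotient_add_finrank N
  omega

lemma quot_le32 {F : Type} [Field F] {I : Type} [Fintype I] {M N : Submodule F (I → F)}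
    (h : M ≤ N) : finrank F ((I → F) ⧸ N) ≤ finrank F ((I → F) ⧸ M) := by
  rcases h.lt_or_eq with h | h
  · exact (quot_lt32 h).le
  · rw [h]

theorem cdF_lt (S : Sys4 d J K) (F : Type) [Field F] (x y : {N // Idl S F N}) (h : x < y) :
    cdF S F y < cdF S F x := by
  have h' : x.1 < y.1 := h
  rw [Prod.lt_iff] at h'
  unfold cdF
  rcases h' with ⟨h1, h2⟩ | ⟨h1, h2⟩
  · have a := quot_lt32 h1
    have b := quot_le32 h2
    omega
  · have a := quot_le32 h1
    have b := quot_lt32 h2
    omega

theorem cdF_le (S : Sys4 d J K) (F : Type) [Field F] (x : {N // Idl S F N}) :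
    cdF S F x ≤ Fintype.card J + Fintype.card K := by
  unfold cdF
  have h1 := Submodule.finrank_quotient_add_finrank x.1.1
  have h2 := Submodule.finrank_quotient_add_finrank x.1.2
  rw [Module.finrank_fintype_fun_eq_card] at h1 h2
  omega

lemma eq_top_of_cdF32 (S : Sys4 d J K) (F : Type) [Field F] (x : {N // Idl S F N})
    (h : cdF S F x = 0) : x = ⊤ := by
  by_contra hne
  have h1 := cdF_lt S F x ⊤ (lt_of_le_of_ne le_top hne)
  omega

theorem PG_card (S : Sys4 d J K) (hw : ∀ x, S.w x = S.lv x) (F : Type) [Field F] (e k : ℕ) :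
    Nat.card {G // S.PG F e k G} =
      Nat.card {G : Fin e → {N // Idl S F N} // Monotone G ∧ ∑ n, cdF S F (G n) = k} := by
  have hw' : S.w = S.lv := funext hw
  refine Nat.card_congr
    { toFun := fun G => ⟨fun n => ⟨(G.1.1 n, G.1.2 n),
        ⟨by have := G.2.hom n; rwa [hw'] at this, G.2.t n, G.2.t4 n⟩⟩,
        fun a b hab => ⟨G.2.mono1 hab, G.2.mono2 hab⟩, by
          have := G.2.card
          simp only [codim] at this
          simpa only [cdF, Finset.sum_add_distrib] using this⟩
      invFun := fun G => ⟨(fun n => (G.1 n).1.1, fun n => (G.1 n).1.2),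
        ⟨fun a b hab => (G.2.1 hab).1, fun a b hab => (G.2.1 hab).2,
          fun n => by have := (G.1 n).2.hom; rwa [← hw'] at this,
          fun n => (G.1 n).2.t, fun n => (G.1 n).2.t4, by
            have := G.2.2
            simp only [cdF, Finset.sum_add_distrib] at this
            exact this⟩⟩
      left_inv := fun G => rfl
      right_inv := fun G => rfl }

end

/-- complete flags of graded ideals and complete chains of coordinate ideals, from the order
isomorphism of module F4 -/
theorem nch_full_of {d : ℕ} {J K : Type} [Fintype J] [Fintype K] (S : Sys4 d J K) (F : Type)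
    [Field F] (c r : ℕ) (φ : {Λ // IsGr F c d Λ} ≃o {N // Idl S F N})
    (hφ : ∀ Λ, ∑ i, finrank F (Λ.1 i) + cdF S F (φ Λ) = r) :
    nch (cdF S F) (Finset.Icc 1 r) = numFlags F c d r := by
  classical
  unfold nch numFlags
  have hlt : ∀ s : (Finset.Icc 1 r : Finset ℕ), r - (s : ℕ) < r + 1 := fun s => by omega
  have hIcc : ∀ t : Fin (r + 1), ¬ (t : ℕ) = r → r - (t : ℕ) ∈ Finset.Icc 1 r := fun t ht => by
    rw [Finset.mem_Icc]
    have := t.2
    omega
  refine Nat.card_congr
    { toFun := fun C => ⟨fun t => (φ.symm (if h : (t : ℕ) = r then ⊤ else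
          C.1 ⟨r - (t : ℕ), hIcc t h⟩)).1, fun t => (φ.symm _).2, ?_, ?_⟩
      invFun := fun I => ⟨fun s => φ ⟨I.1 ⟨r - (s : ℕ), hlt s⟩, I.2.1 _⟩, ?_, ?_⟩
      left_inv := ?_
      right_inv := ?_ }
  · intro t t' htt
    have key : (if h : (t : ℕ) = r then (⊤ : {N // Idl S F N}) else
          C.1 ⟨r - (t : ℕ), hIcc t h⟩) ≤ (if h : (t' : ℕ) = r then ⊤ else
          C.1 ⟨r - (t' : ℕ), hIcc t' h⟩) := by
      by_cases h' : (t' : ℕ) = r
      · rw [dif_pos h']
        exact le_top
      · have h : ¬ (t : ℕ) = r := by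
          have h1 : (t : ℕ) ≤ t' := htt
          have h2 := t'.2
          omega
        rw [dif_neg h, dif_neg h']
        refine C.2.2 _ _ ?_
        have h1 : (t : ℕ) ≤ t' := htt
        show r - (t' : ℕ) ≤ r - (t : ℕ)
        omega
    exact (φ.symm.monotone key)
  · intro t
    have h1 := hφ (φ.symm (if h : (t : ℕ) = r then ⊤ else C.1 ⟨r - (t : ℕ), hIcc t h⟩))
    rw [OrderIso.apply_symm_apply] at h1
    show ∑ i, finrank F ((φ.symm (if h : (t : ℕ) = r then ⊤ else
      C.1 ⟨r - (t : ℕ), hIcc t h⟩)).1 i) = (t : ℕ)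
    by_cases h : (t : ℕ) = r
    · rw [dif_pos h, cdF_top] at h1
      rw [dif_pos h]
      omega
    · rw [dif_neg h, C.2.1] at h1
      rw [dif_neg h]
      have := t.2
      simp only at h1
      omega
  · intro s
    have h1 := hφ ⟨I.1 ⟨r - (s : ℕ), hlt s⟩, I.2.1 _⟩
    have h2 := I.2.2.2 ⟨r - (s : ℕ), hlt s⟩
    have h3 := (Finset.mem_Icc.1 s.2)
    simp only at h1 h2
    rw [h2] at h1
    show cdF S F (φ ⟨I.1 ⟨r - (s : ℕ), hlt s⟩, I.2.1 _⟩) = s
    omega
  · intro s t hst
    refine φ.monotone ?_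
    refine I.2.2.1 ?_
    show r - (t : ℕ) ≤ r - (s : ℕ)
    have : (s : ℕ) ≤ t := hst
    omega
  · intro C
    apply Subtype.ext
    funext s
    have h3 := (Finset.mem_Icc.1 s.2)
    have h4 : ¬ r - (s : ℕ) = r := by omega
    have h5 : (⟨r - (r - (s : ℕ)), hIcc ⟨r - (s : ℕ), hlt s⟩ h4⟩ :
        (Finset.Icc 1 r : Finset ℕ)) = s := by
      apply Subtype.ext
      show r - (r - (s : ℕ)) = s
      omega
    have h6 : (φ.symm (if h : r - (s : ℕ) = r then ⊤ else
      C.1 ⟨r - (r - (s : ℕ)), hIcc ⟨r - (s : ℕ), hlt s⟩ h⟩)) = φ.symm (C.1 s) := by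
      rw [dif_neg h4, h5]
    exact (congrArg φ (Subtype.ext (congrArg Subtype.val h6))).trans (φ.apply_symm_apply _)
  · intro I
    apply Subtype.ext
    funext t
    show (φ.symm (if h : (t : ℕ) = r then ⊤ else
      φ ⟨I.1 ⟨r - (r - (t : ℕ)), _⟩, _⟩)).1 = I.1 t
    by_cases h : (t : ℕ) = r
    · rw [dif_pos h]
      have h1 := hφ ⟨I.1 t, I.2.1 t⟩
      have h2 := I.2.2.2 t
      simp only at h1
      rw [h2] at h1
      have h3 := eq_top_of_cdF32 S F (φ ⟨I.1 t, I.2.1 t⟩) (by omega)
      rw [← h3, OrderIso.symm_apply_apply]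
    · rw [dif_neg h, OrderIso.symm_apply_apply]
      have h5 : (⟨r - (r - (t : ℕ)), by omega⟩ : Fin (r + 1)) = t := by
        apply Fin.ext
        show r - (r - (t : ℕ)) = t
        have := t.2
        omega
      show I.1 _ = I.1 t
      rw [h5]

end Flag

end GradedTop
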