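import Pool.Agent.Lib.GradedFlag.LynWord

/-!
# Theorem F, module F3: the number of Lyndon words (helper32)
-/

namespace GradedTop

namespace Flag

namespace LC32

open Function

variable {d : ℕ}

/-- the shift on sequences -/
def sft (d : ℕ) (w : ℕ → Fin d) : ℕ → Fin d := fun i => w (i + 1)

lemma sft_iter (w : ℕ → Fin d) (i j : ℕ) : ((sft d)^[i] w) j = w (j + i) := by
  induction i generalizing w with
  | zero => rfl
  | succ i ih =>
    rw [Function.iterate_succ_apply, ih]
    show w (j + i + 1) = w (j + (i + 1))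
    rfl

/-- the first `n` letters -/
def tk (n : ℕ) (w : ℕ → Fin d) : List (Fin d) := List.ofFn fun j : Fin n => w j

lemma length_tk (n : ℕ) (w : ℕ → Fin d) : (tk n w).length = n := List.length_ofFn

lemma tk_get (n : ℕ) (w : ℕ → Fin d) (j : ℕ) (h : j < (tk n w).length) : (tk n w)[j] = w j := by
  simp only [tk, List.getElem_ofFn]

lemma per_mod {n : ℕ} {w : ℕ → Fin d} (h : IsPeriodicPt (sft d) n w) (j : ℕ) :
    w (j % n) = w j := by
  have h1 : ∀ q i, w (i + n * q) = w i := by
    intro q
    induction q with
    | zero => intro i; rfl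
    | succ q ih =>
      intro i
      have h2 := congrFun h.eq (i + n * q)
      rw [sft_iter] at h2
      rw [Nat.mul_succ, ← Nat.add_assoc, h2, ih]
  conv_rhs => rw [← Nat.mod_add_div j n]
  rw [h1]

lemma tk_sft {n : ℕ} {w : ℕ → Fin d} (h : IsPeriodicPt (sft d) n w) (i : ℕ) :
    tk n ((sft d)^[i] w) = (tk n w).rotate i := by
  refine List.ext_getElem (by rw [List.length_rotate, length_tk, length_tk]) fun k h1 h2 => ?_
  rw [List.getElem_rotate, tk_get, tk_get, sft_iter, length_tk, per_mod h]

lemma tk_inj {n : ℕ} {w w' : ℕ → Fin d} (h : IsPeriodicPt (sft d) n w)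
    (h' : IsPeriodicPt (sft d) n w') (hn : 0 < n) (he : tk n w = tk n w') : w = w' := by
  funext j
  rw [← per_mod h j, ← per_mod h' j]
  have hj : j % n < n := Nat.mod_lt _ hn
  have h1 := tk_get n w (j % n) (by rw [length_tk]; exact hj)
  have h2 := tk_get n w' (j % n) (by rw [length_tk]; exact hj)
  rw [← h1, ← h2]
  simp only [he]

/-- periodic continuation -/
def ext (L : List (Fin d)) (h : 0 < L.length) : ℕ → Fin d :=
  fun j => L[j % L.length]'(Nat.mod_lt _ h)

lemma ext_per (L : List (Fin d)) (h : 0 < L.length) :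
    IsPeriodicPt (sft d) L.length (ext L h) := by
  funext j
  rw [sft_iter]
  unfold ext
  simp only [Nat.add_mod_right]

lemma tk_ext (L : List (Fin d)) (h : 0 < L.length) : tk L.length (ext L h) = L := by
  refine List.ext_getElem (length_tk _ _) fun k h1 h2 => ?_
  rw [tk_get]
  unfold ext
  simp only [Nat.mod_eq_of_lt h2]

/-- comparison of words of the same length -/
lemma cmp_app {u v : List (Fin d)} (h : u.length = v.length) (s t : List (Fin d)) (hlt : u < v) :
    u ++ s < v ++ t := by
  refine app_lt_app_of_not_prefix u v hlt (fun hp => ?_) s t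
  have h1 := hp.eq_of_length h
  rw [h1] at hlt
  exact lt_irrefl _ hlt

/-- A word is Lyndon iff it is smaller than all its proper rotations. -/
lemma lyn_iff {L : List (Fin d)} (h0 : L ≠ []) :
    IsLyn L ↔ ∀ i, 0 < i → i < L.length → L < L.rotate i := by
  constructor
  · intro hL i hi hi'
    rw [List.rotate_eq_drop_append_take hi'.le]
    have h1 := hL.2 (L.take i) (L.drop i) ?_ ?_ (List.take_append_drop i L).symm
    · by_cases hp : L <+: L.drop i
      · have := hp.length_le
        rw [List.length_drop] at this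
        omega
      · have := app_lt_app_of_not_prefix L (L.drop i) h1 hp [] (L.take i)
        rwa [List.append_nil] at this
    · intro h
      have := congrArg List.length h
      rw [List.length_take, List.length_nil] at this
      omega
    · intro h
      have := congrArg List.length h
      rw [List.length_drop, List.length_nil] at this
      omega
  · intro h
    refine ⟨h0, fun u v hu hv he => ?_⟩
    have hu' := List.length_pos_iff.2 hu
    have hv' := List.length_pos_iff.2 hv
    have hlen : L.length = u.length + v.length := by rw [he, List.length_append]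
    have h1 : L < v ++ u := by
      have := h u.length hu' (by omega)
      rw [he] at this ⊢
      rwa [List.rotate_append_length_eq] at this
    by_contra hlt
    have hle : v ≤ L := not_lt.1 hlt
    have hne : v ≠ L := fun h' => by
      rw [h'] at hlen
      omega
    have hlt' : v < L := lt_of_le_of_ne hle hne
    by_cases hp : v <+: L
    · obtain ⟨v', hv1⟩ := hp
      have hlen' : v'.length = u.length := by
        have := congrArg List.length hv1
        rw [List.length_append] at this
        omega
      have h2 : v' < u := by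
        rw [← hv1, app_lt_iff] at h1
        exact h1
      have h3 : v' ++ v < u ++ v := cmp_app hlen' _ _ h2
      have h4 : L < v' ++ v := by
        have := h v.length hv' (by omega)
        rw [← hv1] at this ⊢
        rwa [List.rotate_append_length_eq] at this
      rw [← he] at h3
      exact lt_asymm h3 h4
    · have := app_lt_app_of_not_prefix v L hlt' hp u []
      rw [List.append_nil] at this
      exact lt_asymm h1 this

lemma lyn_le_rotate {L : List (Fin d)} (h : IsLyn L) (m : ℕ) : L ≤ L.rotate m := by
  have hpos := List.length_pos_iff.2 h.1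
  rw [← List.rotate_mod]
  rcases Nat.eq_zero_or_pos (m % L.length) with h0 | h0
  · rw [h0, List.rotate_zero]
  · exact ((lyn_iff h.1).1 h _ h0 (Nat.mod_lt _ hpos)).le

lemma ext_min {L : List (Fin d)} (h : IsLyn L) (hpos : 0 < L.length) :
    minimalPeriod (sft d) (ext L hpos) = L.length := by
  have h1 := ext_per L hpos
  refine le_antisymm (h1.minimalPeriod_le hpos) ?_
  by_contra hlt
  rw [not_le] at hlt
  have h2 := isPeriodicPt_minimalPeriod (sft d) (ext L hpos)
  have h3 : 0 < minimalPeriod (sft d) (ext L hpos) := h1.minimalPeriod_pos hpos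
  have h4 := (lyn_iff h.1).1 h _ h3 hlt
  have h5 := tk_sft h1 (minimalPeriod (sft d) (ext L hpos))
  rw [h2.eq, tk_ext] at h5
  rw [← h5] at h4
  exact lt_irrefl _ h4

/-- sequences of minimal period `n` -/
def Mp (d n : ℕ) : Type := {w : ℕ → Fin d // minimalPeriod (sft d) w = n}

lemma Lyn.pos {n : ℕ} (L : Lyn d n) : 0 < L.1.length := List.length_pos_iff.2 L.2.1.1

/-- a Lyndon word and a rotation give a primitive word -/
def toM {n : ℕ} (x : Lyn d n × Fin n) : Mp d n :=
  ⟨(sft d)^[(x.2 : ℕ)] (ext x.1.1 (Lyn.pos x.1)), by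
    have h1 := ext_per x.1.1 (Lyn.pos x.1)
    rw [minimalPeriod_apply_iterate (mk_mem_periodicPts (Lyn.pos x.1) h1)]
    rw [ext_min x.1.2.1, x.1.2.2]⟩

lemma toM_bij {n : ℕ} (hn : 0 < n) : Bijective (toM (d := d) (n := n)) := by
  constructor
  · rintro ⟨L, i⟩ ⟨L', j⟩ h
    have h1 : (sft d)^[(i : ℕ)] (ext L.1 (Lyn.pos L)) = (sft d)^[(j : ℕ)] (ext L'.1 (Lyn.pos L')) :=
      congrArg Subtype.val h
    have hl := L.2.2
    have hl' := L'.2.2
    have hp := ext_per L.1 (Lyn.pos L)
    have hp' := ext_per L'.1 (Lyn.pos L')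
    rw [hl] at hp
    rw [hl'] at hp'
    have t1 : tk n (ext L.1 (Lyn.pos L)) = L.1 := by
      have := tk_ext L.1 (Lyn.pos L)
      rwa [hl] at this
    have t2 : tk n (ext L'.1 (Lyn.pos L')) = L'.1 := by
      have := tk_ext L'.1 (Lyn.pos L')
      rwa [hl'] at this
    have h2 : L.1.rotate i = L'.1.rotate j := by
      have h3 := congrArg (tk n) h1
      rwa [tk_sft hp, tk_sft hp', t1, t2] at h3
    have a1 : L'.1 = L.1.rotate (i + (n - j)) := by
      have a0 : L'.1.rotate n = L'.1 := by
        have := List.rotate_length L'.1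
        rwa [hl'] at this
      rw [← List.rotate_rotate, h2, List.rotate_rotate, Nat.add_sub_cancel' j.2.le, a0]
    have a2 : L.1 = L'.1.rotate (j + (n - i)) := by
      have a0 : L.1.rotate n = L.1 := by
        have := List.rotate_length L.1
        rwa [hl] at this
      rw [← List.rotate_rotate, ← h2, List.rotate_rotate, Nat.add_sub_cancel' i.2.le, a0]
    have h4 : L.1 = L'.1 := by
      refine le_antisymm ?_ ?_
      · rw [a1]
        exact lyn_le_rotate L.2.1 _
      · rw [a2]
        exact lyn_le_rotate L'.2.1 _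
    have h5 : L = L' := Subtype.ext h4
    subst h5
    have h6 := iterate_injOn_Iio_minimalPeriod (f := sft d) (x := ext L.1 (Lyn.pos L))
    have hmin : minimalPeriod (sft d) (ext L.1 (Lyn.pos L)) = n := by
      rw [ext_min L.2.1, hl]
    rw [hmin] at h6
    have h7 := h6 (Set.mem_Iio.2 i.2) (Set.mem_Iio.2 j.2) h1
    exact Prod.ext rfl (Fin.ext h7)
  · rintro ⟨w, hw⟩
    have hper : IsPeriodicPt (sft d) n w := by
      have := isPeriodicPt_minimalPeriod (sft d) w
      rwa [hw] at this
    obtain ⟨i, hi, hmin⟩ := Finset.exists_min_image (Finset.range n)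
      (fun i => tk n ((sft d)^[i] w)) ⟨0, Finset.mem_range.2 hn⟩
    rw [Finset.mem_range] at hi
    set x := (sft d)^[i] w with hx
    have hxper : IsPeriodicPt (sft d) n x := hper.apply_iterate i
    have hxmin : minimalPeriod (sft d) x = n := by
      rw [hx, minimalPeriod_apply_iterate (mk_mem_periodicPts hn hper), hw]
    have hlen : (tk n x).length = n := length_tk n x
    have hne : tk n x ≠ [] := by
      intro h
      rw [h, List.length_nil] at hlen
      omega
    have hlyn : IsLyn (tk n x) := by
      rw [lyn_iff hne]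
      intro j hj hj'
      rw [hlen] at hj'
      rw [← tk_sft hxper]
      refine lt_of_le_of_ne ?_ ?_
      · have h1 := hmin ((j + i) % n) (Finset.mem_range.2 (Nat.mod_lt _ hn))
        rw [hper.iterate_mod_apply, Function.iterate_add_apply] at h1
        exact h1
      · intro he
        have h1 := tk_inj hxper (hxper.apply_iterate j) hn he
        have h2 : IsPeriodicPt (sft d) j x := h1.symm
        have h3 := h2.minimalPeriod_le hj
        omega
    have hpos : 0 < (tk n x).length := by omega
    have hext : ext (tk n x) hpos = x := by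
      have h1 := ext_per (tk n x) hpos
      have h2 := tk_ext (tk n x) hpos
      rw [hlen] at h1 h2
      exact tk_inj h1 hxper hn h2
    refine ⟨(⟨tk n x, hlyn, hlen⟩, ⟨(n - i) % n, Nat.mod_lt _ hn⟩), ?_⟩
    apply Subtype.ext
    show (sft d)^[(n - i) % n] (ext (tk n x) hpos) = w
    rw [hext, hxper.iterate_mod_apply, hx, ← Function.iterate_add_apply,
      Nat.sub_add_cancel hi.le]
    exact hper.eq

lemma card_Mp {n : ℕ} (hn : 0 < n) : Nat.card (Mp d n) = n * Fintype.card (Lyn d n) := by
  rw [← Nat.card_congr (Equiv.ofBijective _ (toM_bij (d := d) hn)), Nat.card_prod,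
    Nat.card_eq_fintype_card, Nat.card_eq_fintype_card, Fintype.card_fin, mul_comm]

/-- sequences of period `n` -/
def Pp (d n : ℕ) : Type := {w : ℕ → Fin d // IsPeriodicPt (sft d) n w}

/-- periodic sequences and words -/
def ppEquiv (d : ℕ) {n : ℕ} (hn : 0 < n) : Pp d n ≃ (Fin n → Fin d) where
  toFun w j := w.1 j
  invFun g := ⟨fun j => g ⟨j % n, Nat.mod_lt _ hn⟩, by
    funext j
    rw [sft_iter]
    simp only [Nat.add_mod_right]⟩
  left_inv w := by
    apply Subtype.ext
    funext j
    exact per_mod w.2 j
  right_inv g := by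
    funext j
    simp only [Nat.mod_eq_of_lt j.2]

lemma sum_card {n : ℕ} (hn : 0 < n) :
    ∑ e ∈ n.divisors, e * Fintype.card (Lyn d e) = d ^ n := by
  classical
  have : Fintype (Pp d n) := Fintype.ofEquiv _ (ppEquiv d hn).symm
  have h1 : Fintype.card (Pp d n) = d ^ n := by
    rw [Fintype.card_congr (ppEquiv d hn), Fintype.card_fun, Fintype.card_fin, Fintype.card_fin]
  rw [← h1, ← Finset.card_univ]
  rw [Finset.card_eq_sum_card_fiberwise (f := fun w : Pp d n => minimalPeriod (sft d) w.1)
    (t := n.divisors)]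
  · refine Finset.sum_congr rfl fun e he => ?_
    have he' := Nat.dvd_of_mem_divisors he
    have hepos : 0 < e := Nat.pos_of_mem_divisors he
    rw [← card_Mp hepos, ← Fintype.card_subtype, ← Nat.card_eq_fintype_card]
    refine Nat.card_congr
      { toFun := fun w => ⟨⟨w.1, ?_⟩, w.2⟩
        invFun := fun w => ⟨w.1.1, w.2⟩
        left_inv := fun w => rfl
        right_inv := fun w => rfl }
    rw [isPeriodicPt_iff_minimalPeriod_dvd, w.2]
    exact he'
  · intro w _
    rw [Finset.mem_coe, Nat.mem_divisors]
    exact ⟨w.2.minimalPeriod_dvd, hn.ne'⟩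

end LC32

theorem card_Lyn' (d n : ℕ) (hn : 0 < n) : (Fintype.card (Lyn d n) : ℤ) = witt d n := by
  have h1 : ∀ m > 0, ∑ e ∈ m.divisors, ((e * Fintype.card (Lyn d e) : ℕ) : ℤ) = (d : ℤ) ^ m := by
    intro m hm
    rw [← Nat.cast_sum, LC32.sum_card hm, Nat.cast_pow]
  have h2 := (ArithmeticFunction.sum_eq_iff_sum_mul_moebius_eq (R := ℤ)
    (f := fun e => ((e * Fintype.card (Lyn d e) : ℕ) : ℤ)) (g := fun m => (d : ℤ) ^ m)).1 h1 n hn
  simp only [Int.cast_id] at h2
  have h3 := Nat.sum_divisorsAntidiagonal (n := n)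
    (f := fun a b => ArithmeticFunction.moebius a * (d : ℤ) ^ b)
  rw [h3] at h2
  unfold witt
  rw [h2, Nat.cast_mul, Int.mul_ediv_cancel_left]
  exact_mod_cast hn.ne'

theorem card_Lyn (d n : ℕ) : (Fintype.card (Lyn d (n + 1)) : ℤ) = witt d (n + 1) :=
  card_Lyn' d (n + 1) n.succ_pos

theorem rk_lyn (c d : ℕ) : rk (c + 1) d =
    ((Fintype.card (LynLe d c) + Fintype.card (Lyn d (c + 1)) : ℕ) : ℤ) := by
  classical
  unfold rk
  rw [Finset.sum_Icc_succ_top (by omega), ← card_Lyn, Nat.cast_add]
  congr 1
  rw [← Finset.card_univ, Finset.card_eq_sum_card_fiberwise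
    (f := fun w : LynLe d c => w.1.length) (t := Finset.Icc 1 c), Nat.cast_sum]
  · refine Finset.sum_congr rfl fun i hi => ?_
    have hi' := Finset.mem_Icc.1 hi
    rw [← card_Lyn' d i (by omega), ← Fintype.card_subtype]
    congr 1
    refine (Fintype.card_congr
      { toFun := fun w => ⟨⟨w.1, w.2.1, ?_⟩, w.2.2⟩
        invFun := fun w => ⟨w.1.1, w.1.2.1, w.2⟩
        left_inv := fun w => rfl
        right_inv := fun w => rfl })
    rw [w.2.2]
    exact hi'.2
  · intro w _
    rw [Finset.mem_coe, Finset.mem_Icc]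
    exact ⟨List.length_pos_iff.2 w.2.1.1, w.2.2⟩

end Flag

end GradedTop
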