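import Pool.Agent.Lib.GradedFlag.Def

/-!
# Lyndon words (module F1)
-/

namespace GradedTop

namespace Flag

section lex

variable {α : Type*} [LinearOrder α]

theorem app_lt_iff (s t t' : List α) : s ++ t < s ++ t' ↔ t < t' := by
  induction s with
  | nil => rfl
  | cons a s ih => rw [List.cons_append, List.cons_append, List.cons_lt_cons_self, ih]

theorem app_le_iff (s t t' : List α) : s ++ t ≤ s ++ t' ↔ t ≤ t' := by
  rw [← not_lt, ← not_lt, app_lt_iff]

theorem le_app (s t : List α) : s ≤ s ++ t := by
  conv_lhs => rw [← List.append_nil s]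
  rw [app_le_iff]
  exact not_lt.1 (List.not_lt_nil t)

theorem lt_app (s t : List α) (ht : t ≠ []) : s < s ++ t := by
  refine lt_of_le_of_ne (le_app s t) fun h => ht ?_
  exact List.append_eq_nil_iff.1 (by simpa using h.symm : ([] : List α) ++ t = []) |>.2

/-- If `u < v` and `u` is not a prefix of `v` then `u ++ s < v ++ t`. -/
theorem app_lt_app_of_not_prefix : ∀ (u v : List α), u < v → ¬ u <+: v → ∀ s t : List α,
    u ++ s < v ++ t
  | [], v, _, hp, _, _ => absurd (List.nil_prefix) hp
  | _ :: _, [], h, _, _, _ => absurd h (List.not_lt_nil _)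
  | a :: u, b :: v, h, hp, s, t => by
    rw [List.cons_append, List.cons_append, List.cons_lt_cons_iff]
    rcases List.cons_lt_cons_iff.1 h with h1 | ⟨rfl, h1⟩
    · exact Or.inl h1
    · refine Or.inr ⟨rfl, app_lt_app_of_not_prefix u v h1 (fun h' => hp ?_) s t⟩
      exact (List.cons_prefix_cons).2 ⟨rfl, h'⟩

end lex

theorem isLyn_singleton {d : ℕ} (x : Fin d) : IsLyn [x] := by
  refine ⟨List.cons_ne_nil _ _, fun u v hu hv h => ?_⟩
  have h1 := congrArg List.length h
  have h2 := List.length_pos_iff.2 hu
  have h3 := List.length_pos_iff.2 hv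
  simp only [List.length_singleton, List.length_append] at h1
  omega

/-- product of Lyndon words -/
theorem IsLyn.append {d : ℕ} {u v : List (Fin d)} (hu : IsLyn u) (hv : IsLyn v) (h : u < v) :
    IsLyn (u ++ v) := by
  have key : u ++ v < v := by
    by_cases hp : u <+: v
    · obtain ⟨v', rfl⟩ := hp
      have hv' : v' ≠ [] := by
        rintro rfl
        rw [List.append_nil] at h
        exact lt_irrefl _ h
      rw [app_lt_iff]
      exact hv.2 u v' hu.1 hv' rfl
    · have := app_lt_app_of_not_prefix u v h hp v []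
      rwa [List.append_nil] at this
  refine ⟨fun h' => hu.1 (List.append_eq_nil_iff.1 h').1, fun a b ha hb hab => ?_⟩
  rcases List.append_eq_append_iff.1 hab with ⟨c, hc, hc'⟩ | ⟨c, hc, hc'⟩
  · rcases eq_or_ne c [] with rfl | hne
    · rw [List.nil_append] at hc'
      rw [← hc']
      exact key
    · exact key.trans (hv.2 c b hne hb hc')
  · rcases eq_or_ne c [] with rfl | hne
    · rw [List.nil_append] at hc'
      rw [hc']
      exact key
    · have h1 : u < c := hu.2 a c ha hne hc
      rw [hc']
      refine app_lt_app_of_not_prefix u c h1 (fun hp => ?_) v v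
      have h2 := hp.length_le
      have h3 := congrArg List.length hc
      have h4 := List.length_pos_iff.2 ha
      rw [List.length_append] at h3
      omega

/-- `(u, v)` is the standard factorization of `u ++ v`: `v` is the least proper suffix -/
def IsStd {d : ℕ} (u v : List (Fin d)) : Prop :=
  u ≠ [] ∧ v ≠ [] ∧ ∀ u' v' : List (Fin d), u' ≠ [] → v' ≠ [] → u ++ v = u' ++ v' → v ≤ v'

/-- There is a least proper suffix. -/
theorem exists_isStd {d : ℕ} (w : List (Fin d)) (h2 : 2 ≤ w.length) :
    ∃ u v, w = u ++ v ∧ IsStd u v := by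
  have hfin : {v : List (Fin d) | ∃ u, u ≠ [] ∧ v ≠ [] ∧ w = u ++ v}.Finite := by
    refine (finite_words d w.length).subset fun v hv => ?_
    obtain ⟨u, -, -, rfl⟩ := hv
    simp
  have hne : {v : List (Fin d) | ∃ u, u ≠ [] ∧ v ≠ [] ∧ w = u ++ v}.Nonempty := by
    match w, h2 with
    | a :: b :: w, _ => exact ⟨b :: w, [a], List.cons_ne_nil _ _, List.cons_ne_nil _ _, rfl⟩
    | [_], h2 => simp at h2
    | [], h2 => simp at h2
  obtain ⟨v, hv⟩ := hfin.exists_minimal hne
  obtain ⟨u, hu, hv0, hw⟩ := hv.prop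
  refine ⟨u, v, hw, hu, hv0, fun u' v' hu' hv' h => ?_⟩
  rcases le_total v v' with h1 | h1
  · exact h1
  · exact hv.le_of_le ⟨u', hu', hv', hw.trans h⟩ h1

theorem exists_std {d : ℕ} (w : List (Fin d)) (hw : IsLyn w) (h2 : 2 ≤ w.length) :
    ∃ u v, w = u ++ v ∧ IsStd u v ∧ IsLyn u ∧ IsLyn v ∧ u < v := by
  obtain ⟨u, v, hwuv, hstd⟩ := exists_isStd w h2
  obtain ⟨hu, hv, hmin⟩ := hstd
  refine ⟨u, v, hwuv, ⟨hu, hv, hmin⟩, ⟨hu, fun a b ha hb hab => ?_⟩,
    ⟨hv, fun a b ha hb hab => ?_⟩, ?_⟩
  · by_contra hlt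
    have hbu : b ≤ u := not_lt.1 hlt
    have hne : b ≠ u := by
      intro h
      have h3 := congrArg List.length hab
      have h4 := List.length_pos_iff.2 ha
      rw [List.length_append, h] at h3
      omega
    have hbu' : b < u := lt_of_le_of_ne hbu hne
    have h5 : u ++ v < b ++ v := by
      have := hw.2 a (b ++ v) ha (fun h => hb (List.append_eq_nil_iff.1 h).1)
        (by rw [hwuv, hab, List.append_assoc])
      rwa [hwuv] at this
    by_cases hp : b <+: u
    · obtain ⟨c, hc⟩ := hp
      have hc0 : c ≠ [] := by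
        rintro rfl
        rw [List.append_nil] at hc
        exact hne hc
      have h6 : c ++ v < v := by
        rw [← hc, List.append_assoc, app_lt_iff] at h5
        exact h5
      have h7 := hmin b (c ++ v) hb (fun h => hv (List.append_eq_nil_iff.1 h).2)
        (by rw [← hc, List.append_assoc])
      exact absurd h6 (not_lt.2 h7)
    · exact lt_asymm h5 (app_lt_app_of_not_prefix b u hbu' hp v v)
  · have h1 := hmin (u ++ a) b (fun h => hu (List.append_eq_nil_iff.1 h).1) hb
      (by rw [hab, List.append_assoc])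
    refine lt_of_le_of_ne h1 fun h => ?_
    have h3 := congrArg List.length hab
    have h4 := List.length_pos_iff.2 ha
    rw [List.length_append, h] at h3
    omega
  · have h1 := hw.2 u v hu hv hwuv
    rw [hwuv] at h1
    exact (le_app u v).trans_lt h1

theorem IsStd.unique {d : ℕ} {u v u' v' : List (Fin d)} (h : IsStd u v) (h' : IsStd u' v')
    (he : u ++ v = u' ++ v') : u = u' ∧ v = v' := by
  have hv : v = v' := le_antisymm (h.2.2 u' v' h'.1 h'.2.1 he) (h'.2.2 u v h.1 h.2.1 he.symm)
  subst hv
  exact ⟨List.append_cancel_right he, rfl⟩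

/-- `u < v` Lyndon, `u` a letter or `u = u' v'` with `v ≤ v'`: `(u, v)` is standard -/
theorem isStd_of {d : ℕ} {u v : List (Fin d)} (hu : IsLyn u) (hv : IsLyn v) (_h : u < v)
    (h2 : u.length = 1 ∨ ∃ u' v', u = u' ++ v' ∧ IsStd u' v' ∧ v ≤ v') : IsStd u v := by
  refine ⟨hu.1, hv.1, fun a b ha hb hab => ?_⟩
  rcases List.append_eq_append_iff.1 hab with ⟨c, hc, hc'⟩ | ⟨c, hc, hc'⟩
  · rcases eq_or_ne c [] with rfl | hne
    · rw [List.nil_append] at hc'
      exact hc'.le
    · exact (hv.2 c b hne hb hc').le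
  · rcases eq_or_ne c [] with rfl | hne
    · rw [List.nil_append] at hc'
      exact hc'.ge
    · have hcb : c ≤ b := by
        rw [hc']
        exact le_app c v
      rcases h2 with h1 | ⟨u', v', huv, hstd, hle⟩
      · have h3 := congrArg List.length hc
        have h4 := List.length_pos_iff.2 ha
        have h5 := List.length_pos_iff.2 hne
        rw [List.length_append] at h3
        omega
      · exact hle.trans ((hstd.2.2 a c ha hne (huv.symm.trans hc)).trans hcb)

end Flag

end GradedTop
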