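import Pool.Agent.Lib.GradedFlag.Def
import Pool.Agent.Lib.GradedFlag.LynWord
import Pool.Agent.Lib.GradedFour.Word

/-!
# Linear independence of Lyndon brackets (module F2b)
-/

namespace GradedTop

namespace Flag

open GradedTop.Four Submodule

namespace Ind8

section mul

variable {R : Type} [CommRing R] {d : ℕ}

/-- coefficients of a product with a homogeneous left factor -/
lemma coeff_mul_of_hom (A B : MonoidAlgebra R (FreeMonoid (Fin d))) (m : ℕ)
    (hA : ∀ z : List (Fin d), A.coeff (FreeMonoid.ofList z) ≠ 0 → z.length = m)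
    (z : List (Fin d)) (hz : m ≤ z.length) :
    (A * B).coeff (FreeMonoid.ofList z) =
      A.coeff (FreeMonoid.ofList (z.take m)) * B.coeff (FreeMonoid.ofList (z.drop m)) := by
  classical
  let s : Finset (FreeMonoid (Fin d) × FreeMonoid (Fin d)) :=
    (Finset.range (z.length + 1)).image
      (fun i => (FreeMonoid.ofList (z.take i), FreeMonoid.ofList (z.drop i)))
  have hs : ∀ {p : FreeMonoid (Fin d) × FreeMonoid (Fin d)},
      p ∈ s ↔ p.1 * p.2 = FreeMonoid.ofList z := by
    intro p
    rw [Finset.mem_image]
    constructor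
    · rintro ⟨i, -, rfl⟩
      exact congrArg FreeMonoid.ofList (List.take_append_drop i z)
    · intro h
      have h2 : FreeMonoid.toList p.1 ++ FreeMonoid.toList p.2 = z :=
        congrArg FreeMonoid.toList h
      refine ⟨(FreeMonoid.toList p.1).length, ?_, ?_⟩
      · rw [Finset.mem_range, ← h2, List.length_append]; omega
      · refine Prod.ext ?_ ?_
        · change FreeMonoid.ofList _ = p.1
          rw [← h2, List.take_left]; rfl
        · change FreeMonoid.ofList _ = p.2
          rw [← h2, List.drop_left]; rfl
  rw [MonoidAlgebra.coeff_mul_antidiag A B _ s hs]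
  refine Finset.sum_eq_single (FreeMonoid.ofList (z.take m), FreeMonoid.ofList (z.drop m)) ?_ ?_
  · intro p hp hne
    by_contra h0
    have h1 : A.coeff p.1 ≠ 0 := fun h => h0 (by rw [h, zero_mul])
    have hlen : (FreeMonoid.toList p.1).length = m := hA (FreeMonoid.toList p.1) h1
    have h2 : FreeMonoid.toList p.1 ++ FreeMonoid.toList p.2 = z :=
      congrArg FreeMonoid.toList (hs.1 hp)
    apply hne
    refine Prod.ext ?_ ?_
    · change p.1 = FreeMonoid.ofList _
      rw [← hlen, ← h2, List.take_left]; rfl
    · change p.2 = FreeMonoid.ofList _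
      rw [← hlen, ← h2, List.drop_left]; rfl
  · intro h
    refine absurd (hs.2 ?_) h
    exact congrArg FreeMonoid.ofList (List.take_append_drop m z)

end mul

section lex

variable {α : Type*} [LinearOrder α]

lemma app_le_app {a a' b b' : List α} (hl : a.length = a'.length) (h : a ≤ a') (h' : b ≤ b') :
    a ++ b ≤ a' ++ b' := by
  rcases eq_or_lt_of_le h with rfl | h1
  · exact (app_le_iff a b b').2 h'
  · refine (app_lt_app_of_not_prefix a a' h1 (fun hp => ?_) b b').le
    have := hp.eq_of_length hl
    exact absurd this h1.ne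

end lex

section main

variable (R : Type) [CommRing R] {d : ℕ}

attribute [local instance 100] LieRing.ofAssociativeRing LieAlgebra.ofAssociativeAlgebra

/-- `u` is `w` plus larger words of the same length -/
def Lead (w : List (Fin d)) (u : FreeLieAlgebra R (Fin d)) : Prop :=
  co R w u = 1 ∧ ∀ z : List (Fin d), co R z u ≠ 0 → z.length = w.length ∧ w ≤ z

lemma lead_of (x : Fin d) : Lead R [x] (FreeLieAlgebra.of R x) := by
  constructor
  · rw [co_of, if_pos rfl]
  · intro z hz
    rw [co_of] at hz
    by_cases h : z = [x]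
    · rw [h]; exact ⟨rfl, le_rfl⟩
    · rw [if_neg h] at hz; exact absurd rfl hz

lemma lead_lie {u v : List (Fin d)} {a b : FreeLieAlgebra R (Fin d)} (ha : Lead R u a)
    (hb : Lead R v b) (huv : u ++ v < v) : Lead R (u ++ v) ⁅a, b⁆ := by
  have key : ∀ z : List (Fin d), z.length = u.length + v.length → co R z ⁅a, b⁆ =
      co R (z.take u.length) a * co R (z.drop u.length) b -
        co R (z.take v.length) b * co R (z.drop v.length) a := by
    intro z hz
    change (emb R ⁅a, b⁆).coeff (FreeMonoid.ofList z) = _
    rw [LieHom.map_lie, Ring.lie_def, MonoidAlgebra.coeff_sub, Finsupp.sub_apply,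
      coeff_mul_of_hom (emb R a) (emb R b) u.length (fun z hz => (ha.2 z hz).1) z (by omega),
      coeff_mul_of_hom (emb R b) (emb R a) v.length (fun z hz => (hb.2 z hz).1) z (by omega)]
    rfl
  have key2 : ∀ z : List (Fin d), co R z ⁅a, b⁆ ≠ 0 → z.length = u.length + v.length := by
    intro z hz
    by_contra hne
    apply hz
    change (emb R ⁅a, b⁆).coeff (FreeMonoid.ofList z) = _
    classical
    have h0 : ∀ (A B : MonoidAlgebra R (FreeMonoid (Fin d))) (m n : ℕ),
        (∀ z : List (Fin d), A.coeff (FreeMonoid.ofList z) ≠ 0 → z.length = m) →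
        (∀ z : List (Fin d), B.coeff (FreeMonoid.ofList z) ≠ 0 → z.length = n) →
        z.length ≠ m + n → (A * B).coeff (FreeMonoid.ofList z) = 0 := by
      intro A B m n hA hB hmn
      rw [MonoidAlgebra.coeff_mul]
      refine Finset.sum_eq_zero fun p hp => Finset.sum_eq_zero fun q hq => ?_
      change (if p * q = FreeMonoid.ofList z then A.coeff p * B.coeff q else 0) = 0
      rw [if_neg]
      intro h
      apply hmn
      have h1 : (FreeMonoid.toList p).length = m := hA _ (Finsupp.mem_support_iff.1 hp)
      have h2 : (FreeMonoid.toList q).length = n := hB _ (Finsupp.mem_support_iff.1 hq)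
      have h3 : FreeMonoid.toList p ++ FreeMonoid.toList q = z := congrArg FreeMonoid.toList h
      rw [← h3, List.length_append, h1, h2]
    rw [LieHom.map_lie, Ring.lie_def, MonoidAlgebra.coeff_sub, Finsupp.sub_apply,
      h0 (emb R a) (emb R b) u.length v.length (fun z hz => (ha.2 z hz).1)
        (fun z hz => (hb.2 z hz).1) hne,
      h0 (emb R b) (emb R a) v.length u.length (fun z hz => (hb.2 z hz).1)
        (fun z hz => (ha.2 z hz).1) (by omega), sub_zero]
  have hvu : u ++ v < v ++ u := huv.trans_le (le_app v u)
  constructor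
  · rw [key (u ++ v) (by rw [List.length_append]), List.take_left, List.drop_left, ha.1, hb.1,
      one_mul]
    have h0 : co R ((u ++ v).take v.length) b * co R ((u ++ v).drop v.length) a = 0 := by
      by_contra h
      have h1 : co R ((u ++ v).take v.length) b ≠ 0 := fun h' => h (by rw [h', zero_mul])
      have h2 : co R ((u ++ v).drop v.length) a ≠ 0 := fun h' => h (by rw [h', mul_zero])
      have h3 := app_le_app (hb.2 _ h1).1.symm (hb.2 _ h1).2 (ha.2 _ h2).2
      rw [List.take_append_drop] at h3
      exact absurd h3 (not_le.2 hvu)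
    rw [h0, sub_zero]
  · intro z hz
    have hl := key2 z hz
    refine ⟨by rw [hl, List.length_append], ?_⟩
    rw [key z hl] at hz
    by_cases h : co R (z.take u.length) a * co R (z.drop u.length) b = 0
    · rw [h, zero_sub, neg_ne_zero] at hz
      have h1 : co R (z.take v.length) b ≠ 0 := fun h' => hz (by rw [h', zero_mul])
      have h2 : co R (z.drop v.length) a ≠ 0 := fun h' => hz (by rw [h', mul_zero])
      have h3 := app_le_app (hb.2 _ h1).1.symm (hb.2 _ h1).2 (ha.2 _ h2).2
      rw [List.take_append_drop] at h3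
      exact hvu.le.trans h3
    · have h1 : co R (z.take u.length) a ≠ 0 := fun h' => h (by rw [h', zero_mul])
      have h2 : co R (z.drop u.length) b ≠ 0 := fun h' => h (by rw [h', mul_zero])
      have h3 := app_le_app (ha.2 _ h1).1.symm (ha.2 _ h1).2 (hb.2 _ h2).2
      rwa [List.take_append_drop] at h3

/-- leading words of Lyndon brackets -/
theorem lead_b (b : List (Fin d) → FreeLieAlgebra R (Fin d))
    (h1 : ∀ x, b [x] = FreeLieAlgebra.of R x)
    (h2 : ∀ w : List (Fin d), IsLyn w → 2 ≤ w.length → ∃ u v, w = u ++ v ∧ IsLyn u ∧ IsLyn v ∧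
      b w = ⁅b u, b v⁆) (w : List (Fin d)) (hw : IsLyn w) : Lead R w (b w) := by
  induction hn : w.length using Nat.strong_induction_on generalizing w with
  | _ n ih =>
    have hpos := List.length_pos_iff.2 hw.1
    rcases Nat.lt_or_ge w.length 2 with h | h
    · obtain ⟨x, rfl⟩ := List.length_eq_one_iff.1 (by omega : w.length = 1)
      rw [h1]
      exact lead_of R x
    · obtain ⟨u, v, rfl, hu, hv, hb⟩ := h2 w hw h
      rw [hb]
      have hlu := List.length_pos_iff.2 hu.1
      have hlv := List.length_pos_iff.2 hv.1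
      rw [List.length_append] at hn
      exact lead_lie R (ih u.length (by omega) u hu rfl) (ih v.length (by omega) v hv rfl)
        (hw.2 u v hu.1 hv.1 rfl)

/-- elements with distinct leading words are linearly independent -/
theorem ind_of_lead {ι : Type} (wd : ι → List (Fin d)) (hinj : Function.Injective wd)
    (b : ι → FreeLieAlgebra R (Fin d)) (hb : ∀ i, Lead R (wd i) (b i)) :
    LinearIndependent R b := by
  classical
  rw [linearIndependent_iff']
  intro s g hg
  by_contra hne
  push Not at hne
  obtain ⟨i0, hi0, hgi0⟩ := hne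
  obtain ⟨i, hi, hmin⟩ := Finset.exists_min_image (s.filter fun i => g i ≠ 0) wd
    ⟨i0, Finset.mem_filter.2 ⟨hi0, hgi0⟩⟩
  rw [Finset.mem_filter] at hi
  have h0 := congrArg (co R (wd i)) hg
  rw [map_sum, map_zero, Finset.sum_eq_single i] at h0
  · rw [map_smul, (hb i).1, smul_eq_mul, mul_one] at h0
    exact hi.2 h0
  · intro j hj hji
    rw [map_smul, smul_eq_mul]
    by_cases hgj : g j = 0
    · rw [hgj, zero_mul]
    · have h1 := hmin j (Finset.mem_filter.2 ⟨hj, hgj⟩)
      have h2 : co R (wd i) (b j) = 0 := by
        by_contra h3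
        have h4 := ((hb j).2 _ h3).2
        exact hji (hinj (le_antisymm h4 h1))
      rw [h2, mul_zero]
  · intro h
    exact absurd hi.1 h

/-- linear independence of the Lyndon brackets -/
theorem ind_b (b : List (Fin d) → FreeLieAlgebra R (Fin d))
    (h1 : ∀ x, b [x] = FreeLieAlgebra.of R x)
    (h2 : ∀ w : List (Fin d), IsLyn w → 2 ≤ w.length → ∃ u v, w = u ++ v ∧ IsLyn u ∧ IsLyn v ∧
      b w = ⁅b u, b v⁆) :
    LinearIndependent R (fun w : {w : List (Fin d) // IsLyn w} => b w.1) :=
  ind_of_lead R (fun w : {w : List (Fin d) // IsLyn w} => w.1) Subtype.val_injective _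
    fun w => lead_b R b h1 h2 w.1 w.2

end main

end Ind8

end Flag

end GradedTop
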