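import Pool.Agent.Lib.GradedFlag.LynB
import Pool.Agent.Lib.GradedFlag.Ind8

/-!
# The Lyndon basis over all commutative rings
-/

namespace GradedTop

namespace Flag

lemma ind_bq (R : Type) [CommRing R] {d : ℕ} :
    LinearIndependent R (fun w : {w : List (Fin d) // IsLyn w} => bq R w.1) := by
  refine Ind8.ind_b R (bq R) (bq_single R) fun w hw h2 => ?_
  obtain ⟨u, v, e, hs, hu, hv, -⟩ := exists_std w hw h2
  exact ⟨u, v, e, hu, hv, by rw [e, bq_std R hs]⟩

/-- Lyndon bases with integer structure constants exist. -/
theorem exists_lynData (d : ℕ) : Nonempty (LynData d) :=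
  ⟨{ b := fun R _ => bq R
     T := Tq
     spn := fun R _ => comp_eq_Sp R
     ind := fun R _ => ind_bq R
     brk := fun R _ => brk_R R }⟩

end Flag

end GradedTop
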