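import Pool.Agent.Lib.GradedFlag.Def

/-!
# The polynomial of a chain counting series
-/

namespace GradedTop

namespace Flag

open Finset

/-- `(1 - Y^s) * (Y^s / (1 - Y^s)) = Y^s` -/
lemma one_sub_mul_gs {s : ℕ} (hs : s ≠ 0) :
    (1 - (PowerSeries.X : PowerSeries ℤ) ^ s) * gs s = (PowerSeries.X : PowerSeries ℤ) ^ s := by
  ext k
  rw [sub_mul, one_mul, map_sub, PowerSeries.coeff_X_pow, PowerSeries.coeff_X_pow_mul', gs]
  simp only [PowerSeries.coeff_mk]
  by_cases h : s ≤ k
  · rw [if_pos h]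
    by_cases h1 : k = s
    · subst h1
      simp [hs]
    · rw [if_neg h1]
      have h2 : (s ∣ k ∧ k ≠ 0) ↔ (s ∣ k - s ∧ k - s ≠ 0) := by
        constructor
        · rintro ⟨h3, _⟩
          exact ⟨Nat.dvd_sub h3 dvd_rfl, by omega⟩
        · rintro ⟨h3, _⟩
          refine ⟨?_, by omega⟩
          have := dvd_add h3 (dvd_refl s)
          rwa [Nat.sub_add_cancel h] at this
      by_cases h3 : s ∣ k ∧ k ≠ 0
      · rw [if_pos h3, if_pos (h2.1 h3), sub_self]
      · rw [if_neg h3, if_neg (fun h4 => h3 (h2.2 h4)), sub_self]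
  · rw [if_neg h, if_neg (show ¬ k = s by omega), sub_zero, if_neg]
    rintro ⟨h1, h2⟩
    exact h (Nat.le_of_dvd (Nat.pos_of_ne_zero h2) h1)

theorem series_poly {K : Type} [Field K] (r : ℕ) (ν : Finset ℕ → K) :
    ∃ R : Polynomial K, R.eval 1 = ν (Finset.Icc 1 r) ∧
      (R : PowerSeries K) = (∏ s ∈ Finset.Icc 1 r, (1 - (PowerSeries.X : PowerSeries K) ^ s)) *
        PowerSeries.mk (fun k => ∑ S ∈ (Finset.Icc 1 r).powerset,
          ν S * ((PowerSeries.coeff k (∏ s ∈ S, gs s) : ℤ) : K)) := by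
  classical
  set I := Finset.Icc 1 r with hI
  refine ⟨∑ S ∈ I.powerset, Polynomial.C (ν S) *
    ((∏ s ∈ S, Polynomial.X ^ s) * ∏ s ∈ I \ S, (1 - Polynomial.X ^ s)), ?_, ?_⟩
  · rw [Polynomial.eval_finsetSum, Finset.sum_eq_single_of_mem I (Finset.mem_powerset_self I)]
    · simp [Polynomial.eval_prod]
    · intro S hS hne
      have h1 : (I \ S).Nonempty := by
        rw [Finset.nonempty_iff_ne_empty, Ne, Finset.sdiff_eq_empty_iff_subset]
        intro h
        exact hne (Finset.Subset.antisymm (Finset.mem_powerset.1 hS) h)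
      obtain ⟨a, ha⟩ := h1
      rw [Polynomial.eval_mul, Polynomial.eval_mul, Polynomial.eval_prod (I \ S),
        Finset.prod_eq_zero ha, mul_zero, mul_zero]
      simp
  · have h1 : PowerSeries.mk (fun k => ∑ S ∈ I.powerset,
          ν S * ((PowerSeries.coeff k (∏ s ∈ S, gs s) : ℤ) : K)) =
        ∑ S ∈ I.powerset, PowerSeries.C (ν S) *
          ∏ s ∈ S, PowerSeries.map (Int.castRingHom K) (gs s) := by
      ext k
      rw [PowerSeries.coeff_mk, map_sum]
      refine Finset.sum_congr rfl fun S _ => ?_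
      rw [PowerSeries.coeff_C_mul, ← map_prod, PowerSeries.coeff_map]
      rfl
    rw [h1, Finset.mul_sum]
    have h2 : ((∑ S ∈ I.powerset, Polynomial.C (ν S) *
        ((∏ s ∈ S, Polynomial.X ^ s) * ∏ s ∈ I \ S, (1 - Polynomial.X ^ s)) :
          Polynomial K) : PowerSeries K) =
        ∑ S ∈ I.powerset, PowerSeries.C (ν S) * ((∏ s ∈ S, (PowerSeries.X : PowerSeries K) ^ s) *
          ∏ s ∈ I \ S, (1 - (PowerSeries.X : PowerSeries K) ^ s)) := by
      rw [← Polynomial.coeToPowerSeries.ringHom_apply, map_sum]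
      refine Finset.sum_congr rfl fun S _ => ?_
      simp [map_mul, map_prod]
    rw [h2]
    refine Finset.sum_congr rfl fun S hS => ?_
    have h3 : ∏ s ∈ S, (PowerSeries.X : PowerSeries K) ^ s =
        (∏ s ∈ S, (1 - (PowerSeries.X : PowerSeries K) ^ s)) *
          ∏ s ∈ S, PowerSeries.map (Int.castRingHom K) (gs s) := by
      rw [← Finset.prod_mul_distrib]
      refine Finset.prod_congr rfl fun s hs => ?_
      have hs1 : s ≠ 0 := by
        have := (Finset.mem_Icc.1 (Finset.mem_powerset.1 hS hs)).1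
        omega
      have h4 := congrArg (PowerSeries.map (Int.castRingHom K)) (one_sub_mul_gs hs1)
      simpa using h4.symm
    rw [h3, ← Finset.prod_sdiff (Finset.mem_powerset.1 hS)]
    ring

end Flag

end GradedTop
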