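import Pool.Agent.Lib.GradedFour.Final
import Pool.Agent.Lib.GradedFlag.Core
import Pool.Agent.Lib.GradedFlag.LynData
import Pool.Agent.Lib.GradedFlag.LynCount
import Pool.Agent.Lib.GradedFlag.Chains
import Pool.Agent.Lib.GradedFlag.Series
import Pool.Agent.Lib.GradedFlag.Flags
import Pool.Agent.Lib.GradedFlag.Coord
import Pool.Agent.Lib.GradedFlag.CoordField

/-!
# The leading coefficient is the Euler characteristic of the variety of complete flags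
-/

namespace GradedTop

namespace Flag

open Filter Topology IsLocalRing Polynomial GradedTop.Four

theorem nch_full {d : ℕ} (D : LynData d) (c : ℕ) (F : Type) [Field F] (r : ℕ)
    (hr : r = Fintype.card (LynLe d c) + Fintype.card (Lyn d (c + 1))) :
    nch (cdF (lynSys D c) F) (Finset.Icc 1 r) = numFlags F (c + 1) d r := by
  obtain ⟨φ, hφ⟩ := exists_coord_field D c F
  exact nch_full_of _ _ _ _ φ (fun Λ => by rw [hr]; exact hφ Λ)

/-- Limits of integers along an ultrafilter in the `ℓ`-adic numbers. -/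
lemma exists_padic_lim (ℓ : ℕ) [Fact ℓ.Prime] (U : Ultrafilter ℕ) (f : ℕ → ℕ) :
    ∃ x : ℚ_[ℓ], Tendsto (fun N => (f N : ℚ_[ℓ])) U (𝓝 x) := by
  obtain ⟨x, _, hx⟩ := isCompact_univ.ultrafilter_le_nhds (U.map (fun N => (f N : ℤ_[ℓ])))
    (by simp)
  refine ⟨(x : ℚ_[ℓ]), ?_⟩
  have h1 : Tendsto (fun N => (f N : ℤ_[ℓ])) U (𝓝 x) := hx
  have h2 := (continuous_subtype_val.tendsto x).comp h1
  refine h2.congr fun N => ?_
  simp

/-- The statement for one prime, one `ℓ` and one ultrafilter. -/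
theorem flag_local (c d : ℕ) {m : ℕ} (t : Fin m → Term) (χ : Fin m → ℤ) (ρ : ℕ)
    (D : LynData d)
    (hρ : ρ = Fintype.card (LynLe d c) + Fintype.card (Lyn d (c + 1)))
    (Z : RatFunc ℚ) (s₀ : ℕ)
    (hreal : ∀ s : ℕ, s₀ ≤ s → ∃ z : Fin m → ℝ,
      (∀ i, Tendsto (fun q : ℝ => (q - 1) ^ (ρ : ℤ) * (t i).val q (q ^ (-(s : ℤ))))
        (𝓝[>] 1) (𝓝 (z i))) ∧
      ((Z.eval (RingHom.id ℚ) (s : ℚ) : ℚ) : ℝ) = ∑ i, (χ i : ℝ) * z i)
    (n : Fin m → ℕ → ℤ) (p : ℕ) [Fact p.Prime] (ℓ : ℕ) [Fact ℓ.Prime] (hne : ℓ ≠ p)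
    (h1 : ∀ i, Tendsto (fun k : ℕ => ((n i (p ^ k.factorial) : ℤ) : ℚ_[ℓ])) atTop
      (𝓝 (χ i : ℚ_[ℓ])))
    (h2 : ∀ (R : Type) [CommRing R] [IsDomain R] [IsDiscreteValuationRing R] [CharZero R]
        [IsAdicComplete (IsLocalRing.maximalIdeal R) R] [Finite (IsLocalRing.ResidueField R)]
        [CharP (IsLocalRing.ResidueField R) p],
        zetaSeries R (c + 1) d =
          ∑ i, PowerSeries.C ((n i (resCard R) : ℤ) : ℚ) * (t i).series (resCard R : ℚ))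
    (U : Ultrafilter ℕ) (hUle : (U : Filter ℕ) ≤ atTop) :
    ∃ lc : ℚ, Tendsto (fun s : ℕ => (s : ℝ) ^ ρ * ((Z.eval (RingHom.id ℚ) (s : ℚ) : ℚ) : ℝ))
        atTop (𝓝 (lc : ℝ)) ∧
      Tendsto (fun N : ℕ => (numFlags (GaloisField p N.factorial) (c + 1) d ρ : ℚ_[ℓ])) U
        (𝓝 ((ρ.factorial : ℚ_[ℓ]) * (lc : ℚ_[ℓ]))) ∧
      (lc ≠ 0 ↔ Z ≠ 0 ∧ Z.intDegree = -(ρ : ℤ)) ∧ (Z ≠ 0 → Z.intDegree ≤ -(ρ : ℤ)) := by
  classical
  have hp : p.Prime := Fact.out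
  have hℓ : ℓ.Prime := Fact.out
  set S := lynSys D c with hS
  have hfin : ∀ N : ℕ, Finite (GaloisField p N.factorial) := fun N => inferInstance
  have hFc : ∀ N : ℕ, Nat.card (GaloisField p N.factorial) = p ^ N.factorial :=
    fun N => GaloisField.card p _ N.factorial_ne_zero
  -- the multichains
  set A : ℕ → ℕ → ℕ := fun N k => Nat.card {G : Fin (k + 1) → {I // Idl S (GaloisField p N.factorial) I} //
    Monotone G ∧ ∑ j, cdF S (GaloisField p N.factorial) (G j) = k} with hA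
  have hcount : ∀ N k : ℕ, ((A N k : ℕ) : ℤ) = ∑ V ∈ (Finset.Icc 1 ρ).powerset,
      (nch (cdF S (GaloisField p N.factorial)) V : ℤ) *
        PowerSeries.coeff k (∏ s ∈ V, gs s) := by
    intro N k
    exact multichain_count (cdF S (GaloisField p N.factorial)) (cdF_top S _) (cdF_lt S _) ρ
      (fun x => by rw [hρ]; exact cdF_le S _ x) (k + 1) k (Nat.le_succ k)
  -- congruences
  have hcong : ∀ N k κ C : ℕ, (k + 1) * (c + 2) ≤ ℓ ^ C → ℓ ^ (κ + C) ∣ p ^ N.factorial - 1 →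
      numIdeals (WR p N.factorial) (c + 1) d (resCard (WR p N.factorial) ^ k) ≡ A N k
        [MOD ℓ ^ (κ + 1)] := by
    intro N k κ C hC hdvd
    have := hfin N
    obtain ⟨R, _, _, _, _, _, _, _, π, hR1, hR2, hR3⟩ :=
      exists_ram p N.factorial (k + 1) N.factorial_ne_zero (Nat.succ_ne_zero k)
    have hq : 0 < resCard R := by rw [hR1]; exact pow_pos hp.pos _
    have hWR := WR_resCard p _ N.factorial_ne_zero
    have hz : zetaSeries (WR p N.factorial) (c + 1) d = zetaSeries R (c + 1) d := by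
      rw [h2 (WR p N.factorial), h2 R, hWR, hR1]
    have hz' : numIdeals (WR p N.factorial) (c + 1) d (resCard (WR p N.factorial) ^ k) =
        numIdeals R (c + 1) d (resCard R ^ k) := by
      have h3 := congrArg (PowerSeries.coeff k) hz
      simp only [zetaSeries, PowerSeries.coeff_mk] at h3
      exact_mod_cast h3
    rw [hz', numIdeals_lyn D c R _ (pow_ne_zero _ hq.ne'),
      trunc S R (GaloisField p N.factorial) (k + 1) k (Nat.le_succ k) π hR2 hR3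
        (by rw [hR1, hFc])]
    obtain ⟨u, hu1, hu2⟩ := exists_root_field (GaloisField p N.factorial) ℓ hℓ κ C
      (by rwa [hFc])
    have h3 := fix S (GaloisField p N.factorial) (k + 1) k u ℓ hℓ (κ + C) κ hu1
      ((k + 1) * (c + 2)) (Sep.mono hu2 hC) (fun x => Nat.mul_le_mul_left _ (by
        have := x.2.2
        change x.1.length + 1 ≤ c + 2
        omega)) (fun x => Nat.mul_le_mul_left _ (le_refl (c + 2)))
    rwa [PG_card S (fun _ => rfl)] at h3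
  have hmod : ∀ κ k : ℕ, ∀ᶠ N in atTop,
      numIdeals (WR p N.factorial) (c + 1) d (resCard (WR p N.factorial) ^ k) ≡ A N k
        [MOD ℓ ^ (κ + 1)] := by
    intro κ k
    obtain ⟨C, hC⟩ : ∃ C : ℕ, (k + 1) * (c + 2) ≤ ℓ ^ C :=
      ⟨(k + 1) * (c + 2), (Nat.lt_pow_self hℓ.one_lt).le⟩
    filter_upwards [eventually_ge_atTop ((ℓ ^ (κ + C)).totient)] with N hN
    have hcop : Nat.Coprime p (ℓ ^ (κ + C)) :=
      Nat.Coprime.pow_right _ ((Nat.coprime_primes hp hℓ).2 hne.symm)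
    have h3 : (ℓ ^ (κ + C)).totient ∣ N.factorial := by
      apply Nat.dvd_factorial _ hN
      exact Nat.totient_pos.2 (pow_pos hℓ.pos _)
    have h4 : ℓ ^ (κ + C) ∣ p ^ N.factorial - 1 := by
      obtain ⟨e, he⟩ := h3
      have h5 : p ^ N.factorial ≡ 1 [MOD ℓ ^ (κ + C)] := by
        rw [he, pow_mul]
        simpa using (Nat.ModEq.pow_totient hcop).pow e
      exact (Nat.modEq_iff_dvd' (Nat.one_le_pow _ _ hp.pos)).1 h5.symm
    exact hcong N k κ C hC h4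
  -- limits
  have hν : ∀ V : Finset ℕ, ∃ x : ℚ_[ℓ], Tendsto (fun N : ℕ =>
      (nch (cdF S (GaloisField p N.factorial)) V : ℚ_[ℓ])) U (𝓝 x) :=
    fun V => exists_padic_lim ℓ U _
  choose ν hν using hν
  obtain ⟨R, hR1, hR2⟩ := series_poly ρ ν
  set cc : ℕ → ℚ_[ℓ] := fun k => ∑ V ∈ (Finset.Icc 1 ρ).powerset,
    ν V * ((PowerSeries.coeff k (∏ s ∈ V, gs s) : ℤ) : ℚ_[ℓ]) with hcc
  have hAlim : ∀ k, Tendsto (fun N : ℕ => ((A N k : ℕ) : ℚ_[ℓ])) U (𝓝 (cc k)) := by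
    intro k
    refine (tendsto_finsetSum _ fun V _ => (hν V).mul_const
      ((PowerSeries.coeff k (∏ s ∈ V, gs s) : ℤ) : ℚ_[ℓ])).congr fun N => ?_
    have h3 := congrArg (fun z : ℤ => (z : ℚ_[ℓ])) (hcount N k)
    push_cast at h3
    rw [h3]
  have htend : ∀ k, Tendsto (fun N : ℕ =>
      (((numIdeals (WR p N.factorial) (c + 1) d (resCard (WR p N.factorial) ^ k) : ℕ) : ℤ) :
        ℚ_[ℓ])) U (𝓝 (cc k)) := by
    intro k
    have h0 : Tendsto (fun N : ℕ =>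
      (((numIdeals (WR p N.factorial) (c + 1) d (resCard (WR p N.factorial) ^ k) : ℕ) : ℤ) :
        ℚ_[ℓ]) - ((A N k : ℕ) : ℚ_[ℓ])) U (𝓝 0) := by
      rw [Metric.tendsto_nhds]
      intro ε hε
      obtain ⟨κ, hκ⟩ := PadicInt.exists_pow_neg_lt ℓ hε
      filter_upwards [hUle (hmod κ k)] with N h3
      have h4 : ((ℓ ^ κ : ℕ) : ℤ) ∣
          ((numIdeals (WR p N.factorial) (c + 1) d (resCard (WR p N.factorial) ^ k) : ℕ) : ℤ) -
            (A N k : ℤ) := by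
        have h5 := Nat.modEq_iff_dvd.1 h3.symm
        refine dvd_trans ?_ h5
        exact_mod_cast pow_dvd_pow ℓ (Nat.le_succ κ)
      rw [dist_zero_right]
      have h6 : ((((numIdeals (WR p N.factorial) (c + 1) d
          (resCard (WR p N.factorial) ^ k) : ℕ) : ℤ) : ℚ_[ℓ])) - ((A N k : ℕ) : ℚ_[ℓ]) =
          (((((numIdeals (WR p N.factorial) (c + 1) d
            (resCard (WR p N.factorial) ^ k) : ℕ) : ℤ) - (A N k : ℤ) : ℤ)) : ℚ_[ℓ]) := by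
        push_cast; ring
      rw [h6]
      refine lt_of_le_of_lt ?_ hκ
      rw [Padic.norm_int_le_pow_iff_dvd]
      exact_mod_cast h4
    have h7 := h0.add (hAlim k)
    rw [zero_add] at h7
    refine h7.congr fun N => ?_
    ring
  have hq2 : ∀ k : ℕ, 2 ≤ p ^ k.factorial := by
    intro k
    calc 2 ≤ p ^ 1 := by rw [pow_one]; exact hp.two_le
      _ ≤ p ^ k.factorial := Nat.pow_le_pow_right hp.pos k.factorial_pos
  have ha : ∀ k : ℕ, PowerSeries.mk (fun j => ((((numIdeals (WR p k.factorial) (c + 1) d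
      (resCard (WR p k.factorial) ^ j) : ℕ) : ℤ)) : ℚ)) =
      ∑ i, PowerSeries.C ((n i (p ^ k.factorial) : ℤ) : ℚ) *
        (t i).series ((p ^ k.factorial : ℕ) : ℚ) := by
    intro k
    have h3 := h2 (WR p k.factorial)
    rw [WR_resCard p _ k.factorial_ne_zero] at h3
    rw [← h3, zetaSeries, WR_resCard p _ k.factorial_ne_zero]
    ext j
    simp
  obtain ⟨lc, hlc1, hlc2, hlc3, hlc4⟩ := flag_core t χ ρ Z s₀ hreal ℓ U (fun k => p ^ k.factorial)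
    hq2 ((tendsto_pow_factorial p ℓ hne).mono_left hUle)
    (fun k => norm_prime_pow p ℓ hne _)
    (fun i k => n i (p ^ k.factorial)) (fun i => (h1 i).mono_left hUle)
    (fun k j => (numIdeals (WR p k.factorial) (c + 1) d (resCard (WR p k.factorial) ^ j) : ℤ))
    ha cc htend R hR2
  refine ⟨lc, hlc1, ?_, hlc3, hlc4⟩
  rw [hlc2, hR1]
  refine (hν (Finset.Icc 1 ρ)).congr fun N => ?_
  rw [nch_full D c _ ρ hρ]

theorem flag_limit (c d : ℕ) (Z : RatFunc ℚ) (h : IsTop (c + 1) d Z) :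
    ∃ χ : ℚ, Tendsto (fun s : ℕ => (s : ℝ) ^ (rk (c + 1) d).toNat *
        ((Z.eval (RingHom.id ℚ) (s : ℚ) : ℚ) : ℝ)) atTop
          (𝓝 ((χ : ℝ) / ((rk (c + 1) d).toNat.factorial : ℝ))) ∧
      (∃ B : ℕ, ∀ (p : ℕ) [Fact p.Prime], B < p → ∀ (ℓ : ℕ) [Fact ℓ.Prime], ℓ ≠ p →
        Tendsto (fun k : ℕ => (numFlags (GaloisField p k.factorial) (c + 1) d
          (rk (c + 1) d).toNat : ℚ_[ℓ])) atTop (𝓝 (χ : ℚ_[ℓ]))) ∧
      (Z ≠ 0 ∧ Z.intDegree = -rk (c + 1) d ↔ χ ≠ 0) ∧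
      (Z ≠ 0 → Z.intDegree ≤ -rk (c + 1) d) := by
  obtain ⟨m, t, n, χ, s₀, B, hreal, hloc⟩ := h
  obtain ⟨D⟩ := exists_lynData d
  set ρ := Fintype.card (LynLe d c) + Fintype.card (Lyn d (c + 1)) with hρ
  have hrk : rk (c + 1) d = (ρ : ℤ) := rk_lyn c d
  rw [hrk] at hreal ⊢
  rw [Int.toNat_natCast]
  obtain ⟨p, hpB, hp⟩ := Nat.exists_infinite_primes (B + 3)
  have : Fact p.Prime := ⟨hp⟩
  have : Fact (Nat.Prime 2) := ⟨Nat.prime_two⟩
  obtain ⟨h1, h2⟩ := hloc p hp (by omega)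
  obtain ⟨lc, hlc1, hlc2, hlc3, hlc4⟩ := flag_local c d t χ ρ D hρ Z s₀ hreal n p 2 (by omega)
    (h1 2 (by omega)) h2 (hyperfilter ℕ) Nat.hyperfilter_le_atTop
  have hfac : (ρ.factorial : ℚ) ≠ 0 := by exact_mod_cast ρ.factorial_ne_zero
  refine ⟨(ρ.factorial : ℚ) * lc, ?_, ⟨B, ?_⟩, ?_, hlc4⟩
  · have h3 : (((ρ.factorial : ℚ) * lc : ℚ) : ℝ) / (ρ.factorial : ℝ) = (lc : ℝ) := by
      have : (ρ.factorial : ℝ) ≠ 0 := by exact_mod_cast ρ.factorial_ne_zero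
      push_cast
      field_simp
    rw [h3]
    exact hlc1
  · intro p' hp' hBp' ℓ hℓ hne
    rw [tendsto_iff_ultrafilter]
    intro U hU
    obtain ⟨h1', h2'⟩ := hloc p' hp'.out hBp'
    obtain ⟨lc', h3, h4, _, _⟩ := flag_local c d t χ ρ D hρ Z s₀ hreal n p' ℓ hne
      (h1' ℓ hne) h2' U hU
    have h5 : (lc' : ℝ) = (lc : ℝ) := tendsto_nhds_unique h3 hlc1
    have h6 : lc' = lc := by exact_mod_cast h5
    rw [h6] at h4
    have h7 : (((ρ.factorial : ℚ) * lc : ℚ) : ℚ_[ℓ]) = (ρ.factorial : ℚ_[ℓ]) * (lc : ℚ_[ℓ]) := by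
      push_cast; rfl
    rw [h7]
    exact h4
  · rw [← hlc3]
    constructor
    · intro h3; exact mul_ne_zero hfac h3
    · intro h3; exact right_ne_zero_of_mul h3

lemma isInt_of_padic (x : ℚ) (h : ∀ (ℓ : ℕ) [Fact ℓ.Prime], ‖(x : ℚ_[ℓ])‖ ≤ 1) :
    ∃ z : ℤ, x = z := by
  by_cases hd : x.den = 1
  · exact ⟨x.num, (Rat.den_eq_one_iff x).1 hd |>.symm⟩
  · obtain ⟨ℓ, hℓ, hdvd⟩ := Nat.exists_prime_and_dvd hd
    have : Fact ℓ.Prime := ⟨hℓ⟩
    exfalso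
    have h1 := h ℓ
    have h2 : (x : ℚ_[ℓ]) * (x.den : ℚ_[ℓ]) = (x.num : ℚ_[ℓ]) := by
      have := Rat.mul_den_eq_num x
      exact_mod_cast congrArg (fun y : ℚ => (y : ℚ_[ℓ])) this
    have h3 : ‖(x.den : ℚ_[ℓ])‖ < 1 := by
      have := (Padic.norm_intCast_lt_one_iff (p := ℓ) (k := (x.den : ℤ))).2 (by exact_mod_cast hdvd)
      exact_mod_cast this
    have h4 : ‖(x.num : ℚ_[ℓ])‖ < 1 := by
      rw [← h2, norm_mul]
      calc ‖(x : ℚ_[ℓ])‖ * ‖(x.den : ℚ_[ℓ])‖ ≤ 1 * ‖(x.den : ℚ_[ℓ])‖ :=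
            mul_le_mul_of_nonneg_right h1 (norm_nonneg _)
        _ < 1 := by rwa [one_mul]
    have h5 := (Padic.norm_intCast_lt_one_iff (p := ℓ) (k := x.num)).1 h4
    have h6 : ℓ ∣ x.num.natAbs := Int.natCast_dvd.1 h5
    have h7 := x.reduced
    exact Nat.Prime.not_coprime_iff_dvd.2 ⟨ℓ, hℓ, h6, hdvd⟩ h7

theorem flag_limit_int (c d : ℕ) (Z : RatFunc ℚ) (h : IsTop (c + 1) d Z) :
    ∃ χ : ℤ, (∃ B : ℕ, ∀ (p : ℕ) [Fact p.Prime], B < p → ∀ (ℓ : ℕ) [Fact ℓ.Prime], ℓ ≠ p →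
        Tendsto (fun k : ℕ => (numFlags (GaloisField p k.factorial) (c + 1) d
          (rk (c + 1) d).toNat : ℚ_[ℓ])) atTop (𝓝 (χ : ℚ_[ℓ]))) ∧
      Tendsto (fun s : ℕ => (s : ℝ) ^ (rk (c + 1) d).toNat *
        ((Z.eval (RingHom.id ℚ) (s : ℚ) : ℚ) : ℝ)) atTop
          (𝓝 ((χ : ℝ) / ((rk (c + 1) d).toNat.factorial : ℝ))) ∧
      (Z ≠ 0 → Z.intDegree ≤ -rk (c + 1) d) ∧
      (Z ≠ 0 ∧ Z.intDegree = -rk (c + 1) d ↔ χ ≠ 0) := by
  obtain ⟨χ, h1, ⟨B, h2⟩, h3, h4⟩ := flag_limit c d Z h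
  obtain ⟨z, rfl⟩ : ∃ z : ℤ, χ = z := by
    refine isInt_of_padic χ fun ℓ hℓ => ?_
    obtain ⟨p, hpB, hp⟩ := Nat.exists_infinite_primes (B + ℓ + 1)
    have : Fact p.Prime := ⟨hp⟩
    have h5 := h2 p (by omega) ℓ (by omega)
    refine le_of_tendsto h5.norm (Eventually.of_forall fun k => ?_)
    exact_mod_cast Padic.norm_int_le_one
      ((numFlags (GaloisField p k.factorial) (c + 1) d (rk (c + 1) d).toNat : ℕ) : ℤ)
  refine ⟨z, ⟨B, ?_⟩, ?_, h4, ?_⟩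
  · intro p hp hB ℓ hℓ hne
    have := h2 p hB ℓ hne
    simpa using this
  · simpa using h1
  · rw [h3]; simp

end Flag

end GradedTop
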