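import Pool.Agent.Lib.GradedFlag.LynWord
import Pool.Agent.Lib.GradedFour.Word

/-!
# The Lyndon basis of the free Lie algebra: spanning and structure constants
-/

namespace GradedTop

namespace Flag

open GradedTop.Four Submodule Module

/-- The Lyndon bracket of a word. -/
noncomputable def bq (R : Type) [CommRing R] {d : ℕ} (w : List (Fin d)) :
    FreeLieAlgebra R (Fin d) :=
  open Classical in
  if h : ∃ p : List (Fin d) × List (Fin d), w = p.1 ++ p.2 ∧ IsStd p.1 p.2 then
    ⁅bq R h.choose.1, bq R h.choose.2⁆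
  else match w with
    | [x] => FreeLieAlgebra.of R x
    | _ => 0
termination_by w.length
decreasing_by
  · have h1 := h.choose_spec
    have h2 := congrArg List.length h1.1
    rw [List.length_append] at h2
    have h3 := List.length_pos_iff.2 h1.2.2.1
    omega
  · have h1 := h.choose_spec
    have h2 := congrArg List.length h1.1
    rw [List.length_append] at h2
    have h3 := List.length_pos_iff.2 h1.2.1
    omega

lemma bq_std (R : Type) [CommRing R] {d : ℕ} {u v : List (Fin d)} (h : IsStd u v) :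
    bq R (u ++ v) = ⁅bq R u, bq R v⁆ := by
  have h' : ∃ p : List (Fin d) × List (Fin d), u ++ v = p.1 ++ p.2 ∧ IsStd p.1 p.2 :=
    ⟨(u, v), rfl, h⟩
  rw [bq, dif_pos h']
  have h1 := h'.choose_spec
  obtain ⟨h2, h3⟩ := h.unique h1.2 h1.1
  rw [← h2, ← h3]

lemma bq_single (R : Type) [CommRing R] {d : ℕ} (x : Fin d) :
    bq R [x] = FreeLieAlgebra.of R x := by
  have h' : ¬ ∃ p : List (Fin d) × List (Fin d), [x] = p.1 ++ p.2 ∧ IsStd p.1 p.2 := by
    rintro ⟨⟨u, v⟩, h1, h2, h3, -⟩
    have h4 := congrArg List.length h1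
    simp only [List.length_singleton, List.length_append] at h4
    have h5 : 0 < u.length := List.length_pos_iff.2 h2
    have h6 : 0 < v.length := List.length_pos_iff.2 h3
    omega
  rw [bq, dif_neg h']

/-- induction over Lyndon words by standard factorization -/
lemma lyn_induction {d : ℕ} {P : List (Fin d) → Prop} (h1 : ∀ x, P [x])
    (h2 : ∀ u v, IsStd u v → IsLyn u → IsLyn v → u < v → P u → P v → P (u ++ v))
    (w : List (Fin d)) (hw : IsLyn w) : P w := by
  induction hn : w.length using Nat.strong_induction_on generalizing w with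
  | _ n ih =>
    by_cases h : 2 ≤ w.length
    · obtain ⟨u, v, e, hs, hu, hv, hl⟩ := exists_std w hw h
      have h3 := List.length_pos_iff.2 hs.1
      have h4 := List.length_pos_iff.2 hs.2.1
      have h5 := congrArg List.length e
      rw [List.length_append] at h5
      rw [e]
      exact h2 u v hs hu hv hl (ih u.length (by omega) u hu rfl) (ih v.length (by omega) v hv rfl)
    · have h3 := List.length_pos_iff.2 hw.1
      obtain ⟨x, rfl⟩ := List.length_eq_one_iff.1 (show w.length = 1 by omega)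
      exact h1 x

section Spanning

variable (R : Type) [CommRing R] {d : ℕ}

/-- the span of the Lyndon brackets of length `n` of words smaller than `v` -/
noncomputable def Spn (n : ℕ) (v : List (Fin d)) : Submodule R (FreeLieAlgebra R (Fin d)) :=
  span R {z | ∃ w, IsLyn w ∧ w.length = n ∧ w < v ∧ z = bq R w}

lemma Spn_mono {n : ℕ} {v v' : List (Fin d)} (h : v ≤ v') : Spn R n v ≤ Spn R n v' := by
  refine span_mono ?_
  rintro z ⟨w, h1, h2, h3, h4⟩
  exact ⟨w, h1, h2, lt_of_lt_of_le h3 h, h4⟩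

/-- number of words of length `≤ n` smaller than `v` -/
noncomputable def rnk (n : ℕ) (v : List (Fin d)) : ℕ :=
  Set.ncard {w : List (Fin d) | w.length ≤ n ∧ w < v}

lemma rnk_lt {n : ℕ} {v v' : List (Fin d)} (h : v < v') (hv : v.length ≤ n) :
    rnk n v < rnk n v' := by
  refine Set.ncard_lt_ncard ?_ ((finite_words d n).subset fun _ h => h.1)
  refine ⟨fun w hw => ⟨hw.1, hw.2.trans h⟩, fun h' => ?_⟩
  exact lt_irrefl _ (h' (show v ∈ {w : List (Fin d) | w.length ≤ n ∧ w < v'} from ⟨hv, h⟩)).2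

/-- the main step of the rewriting -/
lemma lie_mem_Spn (n : ℕ) : ∀ (k : ℕ) (x y : List (Fin d)), IsLyn x → IsLyn y → x < y →
    x.length + y.length = n → rnk n y = k → ⁅bq R x, bq R y⁆ ∈ Spn R n y := by
  induction n using Nat.strong_induction_on with
  | _ n ihn =>
  intro k
  induction k using Nat.strong_induction_on with
  | _ k ihk =>
  intro x y hx hy hxy hn hk
  -- brackets of two words smaller than `y`
  have key : ∀ x' z, IsLyn x' → x' < y → z ∈ Spn R (n - x'.length) y →
      x'.length < n → ⁅bq R x', z⁆ ∈ Spn R n y := by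
    intro x' z hx' hxy' hz hl
    refine span_induction ?_ ?_ ?_ ?_ hz
    · rintro _ ⟨w, hw1, hw2, hw3, rfl⟩
      rcases lt_trichotomy x' w with h | h | h
      · refine Spn_mono R hw3.le (ihk (rnk n w) ?_ x' w hx' hw1 h (by omega) rfl)
        rw [← hk]
        exact rnk_lt hw3 (by omega)
      · rw [h, lie_self]; exact zero_mem _
      · rw [← lie_skew]
        refine neg_mem (Spn_mono R hxy'.le (ihk (rnk n x') ?_ w x' hw1 hx' h (by omega) rfl))
        rw [← hk]
        exact rnk_lt hxy' (by omega)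
    · rw [lie_zero]; exact zero_mem _
    · intro a b _ _ ha hb; rw [lie_add]; exact add_mem ha hb
    · intro r a _ ha; rw [lie_smul]; exact smul_mem _ _ ha
  have hstd : (IsStd x y) → ⁅bq R x, bq R y⁆ ∈ Spn R n y := by
    intro h
    rw [← bq_std R h]
    have h1 := hx.append hy hxy
    exact subset_span ⟨x ++ y, h1, by rw [List.length_append, hn],
      h1.2 x y h.1 h.2.1 rfl, rfl⟩
  have hx0 := List.length_pos_iff.2 hx.1
  by_cases h1 : x.length = 1
  · exact hstd (isStd_of hx hy hxy (Or.inl h1))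
  obtain ⟨u, v, e, hs, hu, hv, hl⟩ := exists_std x hx (by omega)
  by_cases h2 : y ≤ v
  · exact hstd (isStd_of hx hy hxy (Or.inr ⟨u, v, e, hs, h2⟩))
  rw [not_le] at h2
  have hu0 := List.length_pos_iff.2 hs.1
  have hv0 := List.length_pos_iff.2 hs.2.1
  have hy0 := List.length_pos_iff.2 hy.1
  have e1 := congrArg List.length e
  rw [List.length_append] at e1
  rw [e, bq_std R hs]
  have h3 : u < y := hl.trans h2
  have j1 : ⁅⁅bq R u, bq R v⁆, bq R y⁆ =
      -⁅bq R v, ⁅bq R u, bq R y⁆⁆ + ⁅bq R u, ⁅bq R v, bq R y⁆⁆ := by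
    rw [lie_lie]; abel
  rw [j1]
  refine add_mem (neg_mem ?_) ?_
  · refine key v _ hv h2 ?_ (by omega)
    exact ihn (n - v.length) (by omega) _ u y hu hy h3 (by omega) rfl
  · refine key u _ hu h3 ?_ (by omega)
    exact ihn (n - u.length) (by omega) _ v y hv hy h2 (by omega) rfl

/-- the span of the Lyndon brackets of length `n` -/
noncomputable def Sp (n : ℕ) : Submodule R (FreeLieAlgebra R (Fin d)) :=
  span R (Set.range fun w : Lyn d n => bq R w.1)

lemma lie_mem_Sp {x y : List (Fin d)} (hx : IsLyn x) (hy : IsLyn y) {n : ℕ}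
    (hn : x.length + y.length = n) : ⁅bq R x, bq R y⁆ ∈ Sp R (d := d) n := by
  have h0 : ∀ v, Spn R n v ≤ Sp R (d := d) n := by
    intro v
    refine span_mono ?_
    rintro z ⟨w, h1, h2, h3, h4⟩
    exact ⟨⟨w, h1, h2⟩, h4.symm⟩
  rcases lt_trichotomy x y with h | h | h
  · exact h0 _ (lie_mem_Spn R n _ x y hx hy h hn rfl)
  · rw [h, lie_self]; exact zero_mem _
  · rw [← lie_skew]
    exact neg_mem (h0 _ (lie_mem_Spn R n _ y x hy hx h (by omega) rfl))

end Spanning

attribute [local instance 10000] FreeLieAlgebra.instLieAlgebra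

/-- base change from the integers -/
noncomputable def bc (R : Type) [CommRing R] (d : ℕ) :
    FreeLieAlgebra ℤ (Fin d) →ₗ⁅ℤ⁆ FreeLieAlgebra R (Fin d) :=
  FreeLieAlgebra.lift ℤ fun i => FreeLieAlgebra.of R i

/-- base change as an additive map -/
noncomputable def bcA (R : Type) [CommRing R] (d : ℕ) :
    FreeLieAlgebra ℤ (Fin d) →+ FreeLieAlgebra R (Fin d) where
  toFun := bc R d
  map_zero' := map_zero (bc R d)
  map_add' := map_add (bc R d)

lemma bc_bq (R : Type) [CommRing R] {d : ℕ} (w : List (Fin d)) (hw : IsLyn w) :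
    bc R d (bq ℤ w) = bq R w := by
  refine lyn_induction (P := fun w => bc R d (bq ℤ w) = bq R w) ?_ ?_ w hw
  · intro x
    rw [bq_single, bq_single, bc, FreeLieAlgebra.lift_of_apply]
  · intro u v hs _ _ _ h1 h2
    rw [bq_std ℤ hs, bq_std R hs, LieHom.map_lie, h1, h2]

/-- the structure constants exist -/
lemma exists_coef {d : ℕ} (n : ℕ) (w : Lyn d (n + 1)) (j : Fin d) :
    ∃ c : List (Fin d) → ℤ, ⁅bq ℤ w.1, FreeLieAlgebra.of ℤ j⁆ =
      ∑ w' : Lyn d (n + 2), c w'.1 • bq ℤ w'.1 := by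
  have h := lie_mem_Sp ℤ w.2.1 (isLyn_singleton j) (n := n + 2)
    (by rw [w.2.2, List.length_singleton])
  rw [bq_single] at h
  obtain ⟨c, hc⟩ := (mem_span_range_iff_exists_fun ℤ).1 h
  classical
  refine ⟨fun w' => if h : IsLyn w' ∧ w'.length = n + 2 then c ⟨w', h⟩ else 0, ?_⟩
  rw [← hc]
  refine Finset.sum_congr rfl fun w' _ => ?_
  have h1 : (if h : IsLyn w'.1 ∧ w'.1.length = n + 2 then c ⟨w'.1, h⟩ else 0) = c w' :=
    dif_pos w'.2
  change _ = (if h : IsLyn w'.1 ∧ w'.1.length = n + 2 then c ⟨w'.1, h⟩ else 0) • bq ℤ w'.1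
  rw [h1]
  exact int_smul_eq_zsmul (FreeLieAlgebra.instLieAlgebra ℤ (Fin d)).toModule _ _

/-- the structure constants -/
noncomputable def Tq {d : ℕ} (j : Fin d) (w' w : List (Fin d)) : ℤ :=
  open Classical in
  if h : ∃ n, IsLyn w ∧ w.length = n + 1 then
    (exists_coef h.choose ⟨w, h.choose_spec⟩ j).choose w' else 0

lemma brk_Z {d : ℕ} (n : ℕ) (w : Lyn d (n + 1)) (j : Fin d) :
    ⁅bq ℤ w.1, FreeLieAlgebra.of ℤ j⁆ = ∑ w' : Lyn d (n + 2), Tq j w'.1 w.1 • bq ℤ w'.1 := by
  have h : ∃ n, IsLyn w.1 ∧ w.1.length = n + 1 := ⟨n, w.2⟩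
  have h1 := (exists_coef h.choose ⟨w.1, h.choose_spec⟩ j).choose_spec
  have h2 : h.choose = n := by
    have h3 := h.choose_spec.2
    have h4 := w.2.2
    omega
  have h3 : ∀ w', Tq j w' w.1 = (exists_coef h.choose ⟨w.1, h.choose_spec⟩ j).choose w' := by
    intro w'
    rw [Tq, dif_pos h]
  simp only [h3]
  generalize (exists_coef h.choose ⟨w.1, h.choose_spec⟩ j).choose = f at h1 ⊢
  rw [h1]
  generalize h.choose = m at h2
  subst h2
  rfl

lemma brk_R {d : ℕ} (R : Type) [CommRing R] (n : ℕ) (w : Lyn d (n + 1)) (j : Fin d) :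
    ⁅bq R w.1, FreeLieAlgebra.of R j⁆ =
      ∑ w' : Lyn d (n + 2), ((Tq j w'.1 w.1 : ℤ) : R) • bq R w'.1 := by
  have h := congrArg (bc R d) (brk_Z n w j)
  rw [LieHom.map_lie, bc_bq R w.1 w.2.1] at h
  have h1 : bc R d (FreeLieAlgebra.of ℤ j) = FreeLieAlgebra.of R j := by
    rw [bc, FreeLieAlgebra.lift_of_apply]
  rw [h1] at h
  rw [h]
  change bcA R d _ = _
  rw [map_sum]
  refine Finset.sum_congr rfl fun w' _ => ?_
  rw [map_zsmul, Int.cast_smul_eq_zsmul]
  congr 1
  exact bc_bq R w'.1 w'.2.1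

section Comp

variable (R : Type) [CommRing R] {d : ℕ}

lemma lie_mem_comp : ∀ (n m : ℕ) (u v : FreeLieAlgebra R (Fin d)), u ∈ comp R d m →
    v ∈ comp R d n → ⁅u, v⁆ ∈ comp R d (m + n) := by
  intro n
  induction n with
  | zero =>
    intro m u v hu hv
    have h : v = 0 := hv
    rw [h, lie_zero]
    exact zero_mem _
  | succ n ih =>
    have h0 : ∀ m (u : FreeLieAlgebra R (Fin d)), u ∈ comp R d m → ∀ j : Fin d,
        ⁅u, FreeLieAlgebra.of R j⁆ ∈ comp R d (m + 1) := by
      intro m u hu j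
      cases m with
      | zero =>
        have h : u = 0 := hu
        rw [h, zero_lie]
        exact zero_mem _
      | succ m => exact subset_span ⟨u, hu, j, rfl⟩
    intro m u v hu hv
    cases n with
    | zero =>
      refine span_induction ?_ ?_ ?_ ?_ hv
      · rintro _ ⟨j, rfl⟩
        exact h0 m u hu j
      · rw [lie_zero]; exact zero_mem _
      · intro a b _ _ ha hb; rw [lie_add]; exact add_mem ha hb
      · intro r a _ ha; rw [lie_smul]; exact smul_mem _ _ ha
    | succ n =>
      refine span_induction ?_ ?_ ?_ ?_ hv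
      · rintro _ ⟨v', hv', j, rfl⟩
        have j1 : ⁅u, ⁅v', FreeLieAlgebra.of R j⁆⁆ =
            ⁅⁅u, v'⁆, FreeLieAlgebra.of R j⁆ - ⁅⁅u, FreeLieAlgebra.of R j⁆, v'⁆ := by
          rw [lie_lie, ← lie_skew v' ⁅u, FreeLieAlgebra.of R j⁆]; abel
        rw [j1]
        refine sub_mem ?_ ?_
        · have := h0 (m + (n + 1)) _ (ih m u v' hu hv') j
          exact this
        · have := ih (m + 1) _ v' (h0 m u hu j) hv'
          rwa [show m + 1 + (n + 1) = m + (n + 1 + 1) by ring] at this
      · rw [lie_zero]; exact zero_mem _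
      · intro a b _ _ ha hb; rw [lie_add]; exact add_mem ha hb
      · intro r a _ ha; rw [lie_smul]; exact smul_mem _ _ ha

lemma bq_mem_comp (w : List (Fin d)) (hw : IsLyn w) : bq R w ∈ comp R d w.length := by
  refine lyn_induction (P := fun w => bq R w ∈ comp R d w.length) ?_ ?_ w hw
  · intro x
    rw [bq_single]
    exact subset_span ⟨x, rfl⟩
  · intro u v hs _ _ _ h1 h2
    rw [bq_std R hs, List.length_append]
    exact lie_mem_comp R _ _ _ _ h1 h2

lemma comp_eq_Sp (n : ℕ) : comp R d (n + 1) = Sp R (n + 1) := by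
  apply le_antisymm
  · induction n with
    | zero =>
      refine span_le.2 ?_
      rintro _ ⟨j, rfl⟩
      exact subset_span ⟨⟨[j], isLyn_singleton j, rfl⟩, bq_single R j⟩
    | succ n ih =>
      refine span_le.2 ?_
      rintro _ ⟨u, hu, j, rfl⟩
      refine span_induction ?_ ?_ ?_ ?_ (ih hu)
      · rintro _ ⟨w, rfl⟩
        simp only
        rw [brk_R]
        exact sum_mem fun w' _ => smul_mem _ _ (subset_span ⟨w', rfl⟩)
      · rw [zero_lie]; exact zero_mem _
      · intro a b _ _ ha hb; rw [add_lie]; exact add_mem ha hb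
      · intro r a _ ha; rw [smul_lie]; exact smul_mem _ _ ha
  · refine span_le.2 ?_
    rintro _ ⟨w, rfl⟩
    have := bq_mem_comp R w.1 w.2.1
    rwa [w.2.2] at this

end Comp

end Flag

end GradedTop
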